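import Mathlib

/-!
# Elementary functions for the homogeneous normalized p-Laplace equation

`Gam κ γ s P = (1 + κ) P - κ γ s arctan (P / (γ s))` and its inverse `pf` in the variable `P`.
-/

namespace Pool.Agent.Helper37.PL

open Real Set Filter Topology

/-- the increasing function `(1 + κ) x - κ arctan x` -/
noncomputable def beta (κ x : ℝ) : ℝ := (1 + κ) * x - κ * arctan x

/-- a lower bound for the derivative of `beta` -/
noncomputable def bmin (κ : ℝ) : ℝ := min 1 (1 + κ)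

lemma bmin_pos {κ : ℝ} (hκ : -1 < κ) : 0 < bmin κ := by
  unfold bmin
  exact lt_min one_pos (by linarith)

lemma hasDerivAt_beta (κ x : ℝ) :
    HasDerivAt (beta κ) ((1 + κ) - κ * (1 / (1 + x ^ 2))) x := by
  unfold beta
  have h1 := ((hasDerivAt_id' x).const_mul (1 + κ)).fun_sub ((hasDerivAt_arctan x).const_mul κ)
  simpa using h1

lemma bmin_le (κ x : ℝ) : bmin κ ≤ (1 + κ) - κ * (1 / (1 + x ^ 2)) := by
  have h0 : (0 : ℝ) < 1 + x ^ 2 := by positivity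
  have h1 : 0 ≤ 1 / (1 + x ^ 2) := by positivity
  have h2 : 1 / (1 + x ^ 2) ≤ 1 := by
    rw [div_le_one h0]; nlinarith [sq_nonneg x]
  have h3 : bmin κ ≤ 1 := min_le_left _ _
  have h4 : bmin κ ≤ 1 + κ := min_le_right _ _
  set t := 1 / (1 + x ^ 2)
  nlinarith

lemma beta_sub_ge (κ : ℝ) {x y : ℝ} (h : x ≤ y) : bmin κ * (y - x) ≤ beta κ y - beta κ x := by
  refine mul_sub_le_image_sub_of_le_deriv (f := beta κ)
    (fun z => (hasDerivAt_beta κ z).differentiableAt) ?_ h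
  intro z
  rw [(hasDerivAt_beta κ z).deriv]
  exact bmin_le κ z

lemma beta_continuous (κ : ℝ) : Continuous (beta κ) := by
  unfold beta
  fun_prop

lemma beta_strictMono {κ : ℝ} (hκ : -1 < κ) : StrictMono (beta κ) := by
  intro x y h
  have := beta_sub_ge κ h.le
  nlinarith [bmin_pos hκ, sub_pos.mpr h, mul_pos (bmin_pos hκ) (sub_pos.mpr h)]

lemma beta_surjective {κ : ℝ} (hκ : -1 < κ) : Function.Surjective (beta κ) := by
  have h0 : beta κ 0 = 0 := by simp [beta]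
  apply (beta_continuous κ).surjective
  · refine tendsto_atTop_mono' atTop ?_ (tendsto_id.const_mul_atTop (bmin_pos hκ))
    filter_upwards [eventually_ge_atTop 0] with x hx
    have := beta_sub_ge κ hx
    simp [h0] at this
    simpa using this
  · refine tendsto_atBot_mono' atBot ?_ (tendsto_id.const_mul_atBot (bmin_pos hκ))
    filter_upwards [eventually_le_atBot 0] with x hx
    have := beta_sub_ge κ hx
    simp only [h0, zero_sub] at this
    simp only [id]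
    linarith

/-- the inverse function of `beta κ` -/
noncomputable def B (κ y : ℝ) : ℝ := Function.invFun (beta κ) y

lemma beta_B {κ : ℝ} (hκ : -1 < κ) (y : ℝ) : beta κ (B κ y) = y :=
  Function.invFun_eq (beta_surjective hκ y)

lemma B_beta {κ : ℝ} (hκ : -1 < κ) (x : ℝ) : B κ (beta κ x) = x :=
  Function.leftInverse_invFun (beta_strictMono hκ).injective x

lemma beta_abs_sub (κ x y : ℝ) : bmin κ * |y - x| ≤ |beta κ y - beta κ x| := by
  rcases le_total x y with h | h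
  · have := beta_sub_ge κ h
    rw [abs_of_nonneg (sub_nonneg.mpr h)]
    exact this.trans (le_abs_self _)
  · have := beta_sub_ge κ h
    rw [abs_sub_comm y x, abs_sub_comm (beta κ y), abs_of_nonneg (sub_nonneg.mpr h)]
    exact this.trans (le_abs_self _)

lemma B_abs_sub {κ : ℝ} (hκ : -1 < κ) (x y : ℝ) : bmin κ * |B κ y - B κ x| ≤ |y - x| := by
  have := beta_abs_sub κ (B κ x) (B κ y)
  rwa [beta_B hκ, beta_B hκ] at this

lemma B_continuous {κ : ℝ} (hκ : -1 < κ) : Continuous (B κ) := by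
  rw [continuous_iff_continuousAt]
  intro x
  rw [Metric.continuousAt_iff]
  intro ε hε
  refine ⟨bmin κ * ε, mul_pos (bmin_pos hκ) hε, fun {y} hy => ?_⟩
  rw [Real.dist_eq] at hy ⊢
  have := B_abs_sub hκ x y
  exact lt_of_mul_lt_mul_left (this.trans_lt hy) (bmin_pos hκ).le

lemma hasDerivAt_B {κ : ℝ} (hκ : -1 < κ) (y : ℝ) :
    HasDerivAt (B κ) ((1 + κ) - κ * (1 / (1 + (B κ y) ^ 2)))⁻¹ y := by
  apply HasDerivAt.of_local_left_inverse (B_continuous hκ).continuousAt (hasDerivAt_beta κ _)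
  · have := bmin_le κ (B κ y)
    have := bmin_pos hκ
    linarith
  · exact Eventually.of_forall fun z => beta_B hκ z

/-- `s arctan (P / (γ s))` -/
noncomputable def q (γ s P : ℝ) : ℝ := s * arctan (P / (γ * s))

/-- `P arctan (P / (γ s))` -/
noncomputable def H (γ s P : ℝ) : ℝ := P * arctan (P / (γ * s))

/-- `(1 + κ) P - κ γ s arctan (P / (γ s))` -/
noncomputable def Gam (κ γ s P : ℝ) : ℝ := (1 + κ) * P - κ * γ * q γ s P

/-- the inverse of `Gam κ γ s` -/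
noncomputable def pf (κ γ s Y : ℝ) : ℝ := γ * s * B κ (Y / (γ * s))

lemma Gam_eq (κ : ℝ) {γ s : ℝ} (hγ : 0 < γ) (hs : 0 < s) (P : ℝ) :
    Gam κ γ s P = γ * s * beta κ (P / (γ * s)) := by
  unfold Gam q beta
  field_simp

lemma Gam_pf {κ γ s : ℝ} (hκ : -1 < κ) (hγ : 0 < γ) (hs : 0 < s) (Y : ℝ) :
    Gam κ γ s (pf κ γ s Y) = Y := by
  rw [Gam_eq κ hγ hs]
  unfold pf
  have h : γ * s ≠ 0 := by positivity
  rw [mul_div_cancel_left₀ _ h, beta_B hκ]
  field_simp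

lemma pf_Gam {κ γ s : ℝ} (hκ : -1 < κ) (hγ : 0 < γ) (hs : 0 < s) (P : ℝ) :
    pf κ γ s (Gam κ γ s P) = P := by
  rw [Gam_eq κ hγ hs]
  unfold pf
  have h : γ * s ≠ 0 := by positivity
  rw [mul_div_cancel_left₀ _ h, B_beta hκ]
  field_simp

lemma Gam_sub_ge (κ : ℝ) {γ s : ℝ} (hγ : 0 < γ) (hs : 0 < s) {P P' : ℝ} (h : P ≤ P') :
    bmin κ * (P' - P) ≤ Gam κ γ s P' - Gam κ γ s P := by
  rw [Gam_eq κ hγ hs, Gam_eq κ hγ hs]
  have h0 : 0 < γ * s := by positivity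
  have h1 : P / (γ * s) ≤ P' / (γ * s) := by gcongr
  have h2 := beta_sub_ge κ h1
  have h3 := mul_le_mul_of_nonneg_left h2 h0.le
  calc bmin κ * (P' - P) = γ * s * (bmin κ * (P' / (γ * s) - P / (γ * s))) := by field_simp
    _ ≤ _ := h3
    _ = _ := by ring

lemma Gam_abs_sub (κ : ℝ) {γ s : ℝ} (hγ : 0 < γ) (hs : 0 < s) (P P' : ℝ) :
    bmin κ * |P' - P| ≤ |Gam κ γ s P' - Gam κ γ s P| := by
  rcases le_total P P' with h | h
  · have := Gam_sub_ge κ hγ hs h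
    rw [abs_of_nonneg (sub_nonneg.mpr h)]
    exact this.trans (le_abs_self _)
  · have := Gam_sub_ge κ hγ hs h
    rw [abs_sub_comm P' P, abs_sub_comm (Gam κ γ s P'), abs_of_nonneg (sub_nonneg.mpr h)]
    exact this.trans (le_abs_self _)

lemma abs_arctan_le (x : ℝ) : |arctan x| ≤ 2 := by
  rw [abs_le]
  have h1 := arctan_lt_pi_div_two x
  have h2 := neg_pi_div_two_lt_arctan x
  have h3 := Real.pi_lt_four
  constructor <;> linarith

lemma abs_div_le (x : ℝ) : |x / (1 + x ^ 2)| ≤ 1 := by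
  have h0 : (0 : ℝ) < 1 + x ^ 2 := by positivity
  rw [abs_div, abs_of_pos h0, div_le_one h0, abs_le]
  constructor <;> nlinarith [sq_nonneg (x - 1), sq_nonneg (x + 1)]

lemma hasDerivAt_arg_s {γ s P : ℝ} (hγ : 0 < γ) (hs : 0 < s) :
    HasDerivAt (fun s => P / (γ * s)) (-(P / (γ * s)) / s) s := by
  have h : HasDerivAt (fun s => P / (γ * s)) ((0 * (γ * s) - P * (γ * 1)) / (γ * s) ^ 2) s :=
    (hasDerivAt_const s P).fun_div ((hasDerivAt_id' s).const_mul γ) (by positivity)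
  refine h.congr_deriv ?_
  field_simp
  ring

lemma hasDerivAt_q_s {γ s P : ℝ} (hγ : 0 < γ) (hs : 0 < s) :
    HasDerivAt (fun s => q γ s P)
      (arctan (P / (γ * s)) - (P / (γ * s)) / (1 + (P / (γ * s)) ^ 2)) s := by
  unfold q
  have h := (hasDerivAt_id' s).fun_mul ((hasDerivAt_arg_s (P := P) hγ hs).arctan)
  refine h.congr_deriv ?_
  field_simp
  ring

lemma hasDerivAt_H_s {γ s P : ℝ} (hγ : 0 < γ) (hs : 0 < s) :
    HasDerivAt (fun s => H γ s P)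
      (-γ * ((P / (γ * s)) ^ 2 / (1 + (P / (γ * s)) ^ 2))) s := by
  unfold H
  have h := ((hasDerivAt_arg_s (P := P) hγ hs).arctan).const_mul P
  refine h.congr_deriv ?_
  have h0 : 1 + (P / (γ * s)) ^ 2 ≠ 0 := by positivity
  field_simp

lemma hasDerivAt_H_P {γ s P : ℝ} :
    HasDerivAt (fun P => H γ s P)
      (arctan (P / (γ * s)) + (P / (γ * s)) / (1 + (P / (γ * s)) ^ 2)) P := by
  unfold H
  have h1 : HasDerivAt (fun P : ℝ => P / (γ * s)) (1 / (γ * s)) P :=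
    (hasDerivAt_id' P).div_const (γ * s)
  have h := (hasDerivAt_id' P).fun_mul h1.arctan
  refine h.congr_deriv ?_
  ring

lemma q_lip {γ s s' : ℝ} (hγ : 0 < γ) (hs : 0 < s) (hs' : 0 < s') (P : ℝ) :
    |q γ s' P - q γ s P| ≤ 3 * |s' - s| := by
  have := Convex.norm_image_sub_le_of_norm_hasDerivWithin_le (f := fun s => q γ s P)
    (f' := fun s => arctan (P / (γ * s)) - (P / (γ * s)) / (1 + (P / (γ * s)) ^ 2))
    (C := 3) (s := Ioi 0) (x := s) (y := s')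
    (fun x hx => (hasDerivAt_q_s hγ hx).hasDerivWithinAt) ?_ (convex_Ioi 0) hs hs'
  · simpa using this
  · intro x _
    rw [Real.norm_eq_abs]
    have h1 := abs_arctan_le (P / (γ * x))
    have h2 := abs_div_le (P / (γ * x))
    calc _ ≤ |arctan (P / (γ * x))| + |(P / (γ * x)) / (1 + (P / (γ * x)) ^ 2)| := abs_sub _ _
      _ ≤ 3 := by linarith

lemma H_lip_s {γ s s' : ℝ} (hγ : 0 < γ) (hs : 0 < s) (hs' : 0 < s') (P : ℝ) :
    |H γ s' P - H γ s P| ≤ γ * |s' - s| := by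
  have := Convex.norm_image_sub_le_of_norm_hasDerivWithin_le (f := fun s => H γ s P)
    (f' := fun s => -γ * ((P / (γ * s)) ^ 2 / (1 + (P / (γ * s)) ^ 2)))
    (C := γ) (s := Ioi 0) (x := s) (y := s')
    (fun x hx => (hasDerivAt_H_s hγ hx).hasDerivWithinAt) ?_ (convex_Ioi 0) hs hs'
  · simpa using this
  · intro x _
    rw [Real.norm_eq_abs, abs_mul, abs_neg, abs_of_pos hγ]
    have h1 : (0 : ℝ) < 1 + (P / (γ * x)) ^ 2 := by positivity
    have h2 : |(P / (γ * x)) ^ 2 / (1 + (P / (γ * x)) ^ 2)| ≤ 1 := by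
      rw [abs_of_nonneg (by positivity), div_le_one h1]
      linarith
    nlinarith

lemma H_lip_P {γ s : ℝ} (P P' : ℝ) : |H γ s P' - H γ s P| ≤ 3 * |P' - P| := by
  have := Convex.norm_image_sub_le_of_norm_hasDerivWithin_le (f := fun P => H γ s P)
    (f' := fun P => arctan (P / (γ * s)) + (P / (γ * s)) / (1 + (P / (γ * s)) ^ 2))
    (C := 3) (s := univ) (x := P) (y := P')
    (fun x _ => (hasDerivAt_H_P).hasDerivWithinAt) ?_ convex_univ (mem_univ _) (mem_univ _)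
  · simpa using this
  · intro x _
    rw [Real.norm_eq_abs]
    have h1 := abs_arctan_le (x / (γ * s))
    have h2 := abs_div_le (x / (γ * s))
    calc _ ≤ |arctan (x / (γ * s))| + |(x / (γ * s)) / (1 + (x / (γ * s)) ^ 2)| := abs_add_le _ _
      _ ≤ 3 := by linarith

lemma Gam_lip_s (κ : ℝ) {γ s s' : ℝ} (hγ : 0 < γ) (hs : 0 < s) (hs' : 0 < s') (P : ℝ) :
    |Gam κ γ s' P - Gam κ γ s P| ≤ 3 * |κ| * γ * |s' - s| := by
  have h := q_lip hγ hs hs' P
  have : Gam κ γ s' P - Gam κ γ s P = -(κ * γ * (q γ s' P - q γ s P)) := by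
    unfold Gam; ring
  rw [this, abs_neg, abs_mul, abs_mul, abs_of_pos hγ]
  calc |κ| * γ * |q γ s' P - q γ s P| ≤ |κ| * γ * (3 * |s' - s|) := by gcongr
    _ = _ := by ring

lemma pf_lip {κ γ s s' : ℝ} (hκ : -1 < κ) (hγ : 0 < γ) (hs : 0 < s) (hs' : 0 < s')
    (Y Y' : ℝ) :
    bmin κ * |pf κ γ s' Y' - pf κ γ s Y| ≤ |Y' - Y| + 3 * |κ| * γ * |s' - s| := by
  have h1 := Gam_abs_sub κ hγ hs (pf κ γ s Y) (pf κ γ s' Y')
  have h2 := Gam_lip_s κ hγ hs hs' (pf κ γ s' Y')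
  rw [Gam_pf hκ hγ hs'] at h2
  rw [Gam_pf hκ hγ hs] at h1
  have h3 : |Gam κ γ s (pf κ γ s' Y') - Y| ≤ |Y' - Y| + |Y' - Gam κ γ s (pf κ γ s' Y')| := by
    rw [abs_sub_comm Y' (Gam κ γ s (pf κ γ s' Y'))]
    calc |Gam κ γ s (pf κ γ s' Y') - Y|
        = |(Gam κ γ s (pf κ γ s' Y') - Y') + (Y' - Y)| := by ring_nf
      _ ≤ _ := abs_add_le _ _
      _ = _ := by ring
  linarith

/-- strict monotonicity of `pf`, robust in `s` -/
lemma pf_lt {κ γ s s' : ℝ} (hκ : -1 < κ) (hγ : 0 < γ) (hs : 0 < s) (hs' : 0 < s')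
    {Y Y' : ℝ} (h : Y + 3 * |κ| * γ * |s' - s| < Y') : pf κ γ s Y < pf κ γ s' Y' := by
  by_contra hcon
  push Not at hcon
  have h1 := Gam_sub_ge κ hγ hs hcon
  rw [Gam_pf hκ hγ hs] at h1
  have h2 := Gam_lip_s κ hγ hs hs' (pf κ γ s' Y')
  rw [Gam_pf hκ hγ hs'] at h2
  have h3 := le_abs_self (Y' - Gam κ γ s (pf κ γ s' Y'))
  have h4 : 0 ≤ bmin κ * (pf κ γ s Y - pf κ γ s' Y') :=
    mul_nonneg (bmin_pos hκ).le (sub_nonneg.mpr hcon)
  linarith

/-- the nonlinear operator on homogeneous functions: the normalized `p`-Laplacian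
(`κ = p - 2`) of `r ^ γ s(θ)` is `r ^ (γ - 2) Nop κ γ s s' s''` -/
noncomputable def Nop (κ γ a b c : ℝ) : ℝ :=
  γ ^ 2 * a + c + κ * ((γ ^ 3 * (γ - 1) * a ^ 3 + γ * (2 * γ - 1) * (a * b ^ 2) + b ^ 2 * c) /
    (γ ^ 2 * a ^ 2 + b ^ 2))

/-- the constant `c₀ = γ² + κ γ (γ - 1)` -/
noncomputable def c0 (κ γ : ℝ) : ℝ := γ ^ 2 + κ * γ * (γ - 1)

lemma Nop_eq {κ γ a b c : ℝ} (h : γ ^ 2 * a ^ 2 + b ^ 2 ≠ 0) :
    Nop κ γ a b c = (1 + κ * (b ^ 2 / (γ ^ 2 * a ^ 2 + b ^ 2))) * c +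
      (c0 κ γ + κ * γ ^ 2 * (b ^ 2 / (γ ^ 2 * a ^ 2 + b ^ 2))) * a := by
  unfold Nop c0
  field_simp
  ring

/-- `N(s) = (Γ(s,s'))' + κ γ H(s,s') + c₀ s` -/
lemma hasDerivAt_Gam {κ γ : ℝ} (hγ : 0 < γ) {s P : ℝ → ℝ} {s'' θ : ℝ}
    (hs : HasDerivAt s (P θ) θ) (hP : HasDerivAt P s'' θ) (hpos : 0 < s θ) :
    HasDerivAt (fun θ => Gam κ γ (s θ) (P θ))
      (Nop κ γ (s θ) (P θ) s'' - κ * γ * H γ (s θ) (P θ) - c0 κ γ * s θ) θ := by
  have h1 : HasDerivAt (fun θ => P θ / (γ * s θ))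
      ((s'' * (γ * s θ) - P θ * (γ * P θ)) / (γ * s θ) ^ 2) θ :=
    hP.fun_div (hs.const_mul γ) (by positivity)
  have h2 := hs.fun_mul h1.arctan
  have h3 := (hP.const_mul (1 + κ)).fun_sub (h2.const_mul (κ * γ))
  have h4 : HasDerivAt (fun θ => Gam κ γ (s θ) (P θ)) _ θ := h3
  refine h4.congr_deriv ?_
  have h5 : γ ^ 2 * (s θ) ^ 2 + (P θ) ^ 2 ≠ 0 := by positivity
  rw [Nop_eq h5]
  unfold H c0
  have h6 : 1 + (P θ / (γ * s θ)) ^ 2 ≠ 0 := by positivity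
  have h7 : (1 : ℝ) + (P θ / (γ * s θ)) ^ 2 = (γ ^ 2 * (s θ) ^ 2 + (P θ) ^ 2) / (γ * s θ) ^ 2 := by
    field_simp
  rw [h7]
  field_simp
  ring

end Pool.Agent.Helper37.PL
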