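import Mathlib

/-!
# The normalized `p`-Laplacian and its viscosity solutions

`E n` is `n`-dimensional Euclidean space.
-/

namespace Pool.Agent.Helper37.PL

open Filter Topology

/-- `n`-dimensional Euclidean space -/
abbrev E (n : ℕ) : Type := EuclideanSpace ℝ (Fin n)

/-- bilinear forms on `E n` (Hessians) -/
abbrev Bil (n : ℕ) : Type := E n →L[ℝ] E n →L[ℝ] ℝ

/-- The normalized `p`-Laplacian as a function of the gradient `q ≠ 0` and the Hessian `X`:
`tr X + (p - 2) ⟨X q, q⟩ / |q|²`. -/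
noncomputable def plap {n : ℕ} (p : ℝ) (q : E n) (X : Bil n) : ℝ :=
  ∑ i, X (EuclideanSpace.single i 1) (EuclideanSpace.single i 1) + (p - 2) * (X q q / ‖q‖ ^ 2)

/-- The upper semicontinuous envelope at `(q, X)` of the normalized `p`-Laplacian
(which is defined for nonzero gradients). -/
noncomputable def upperEnv {n : ℕ} (p : ℝ) (q : E n) (X : Bil n) : EReal :=
  limsup (fun y : E n × Bil n => ((plap p y.1 y.2 : ℝ) : EReal)) (𝓝[{y | y.1 ≠ 0}] (q, X))

/-- The lower semicontinuous envelope at `(q, X)` of the normalized `p`-Laplacian. -/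
noncomputable def lowerEnv {n : ℕ} (p : ℝ) (q : E n) (X : Bil n) : EReal :=
  liminf (fun y : E n × Bil n => ((plap p y.1 y.2 : ℝ) : EReal)) (𝓝[{y | y.1 ≠ 0}] (q, X))

/-- The Hessian of `φ` at `x`. -/
noncomputable def hess {n : ℕ} (φ : E n → ℝ) (x : E n) : Bil n := fderiv ℝ (fderiv ℝ φ) x

/-- `u` is a viscosity subsolution of `Δ_p^N u = f` in `Ω`: whenever `u - φ` has a local maximum
at `x ∈ Ω`, with `φ` of class `C²` near `x`, the upper envelope of the operator at
`(Dφ(x), D²φ(x))` is at least `f x`. -/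
def IsSubsolution {n : ℕ} (p : ℝ) (Ω : Set (E n)) (f u : E n → ℝ) : Prop :=
  ∀ x ∈ Ω, ∀ φ : E n → ℝ, ContDiffAt ℝ 2 φ x → IsLocalMax (fun y => u y - φ y) x →
    ((f x : ℝ) : EReal) ≤ upperEnv p (gradient φ x) (hess φ x)

/-- `u` is a viscosity supersolution of `Δ_p^N u = f` in `Ω`. -/
def IsSupersolution {n : ℕ} (p : ℝ) (Ω : Set (E n)) (f u : E n → ℝ) : Prop :=
  ∀ x ∈ Ω, ∀ φ : E n → ℝ, ContDiffAt ℝ 2 φ x → IsLocalMin (fun y => u y - φ y) x →
    lowerEnv p (gradient φ x) (hess φ x) ≤ ((f x : ℝ) : EReal)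

/-- `u` is a viscosity solution of the Dirichlet problem `Δ_p^N u = f` in `Ω`, `u = g` on `∂Ω`,
continuous on the closure of `Ω`. -/
def IsSolution {n : ℕ} (p : ℝ) (Ω : Set (E n)) (f g u : E n → ℝ) : Prop :=
  ContinuousOn u (closure Ω) ∧ IsSubsolution p Ω f u ∧ IsSupersolution p Ω f u ∧
    ∀ x ∈ frontier Ω, u x = g x

end Pool.Agent.Helper37.PL
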