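import Mathlib
import Pool.Agent.Helper37.PL.Defs
import Pool.Agent.Helper37.PL.Calc

/-!
# Homogeneous functions in the plane and the normalized `p`-Laplacian
-/

namespace Pool.Agent.Helper37.PL

open Real Set Filter Topology

/-- a necessary condition for local minima -/
lemma second_deriv_nonneg {g g' : ℝ → ℝ} {g'' : ℝ} (h1 : ∀ᶠ t in 𝓝 (0 : ℝ), HasDerivAt g (g' t) t)
    (h2 : HasDerivAt g' g'' 0) (h3 : IsLocalMin g 0) : g' 0 = 0 ∧ 0 ≤ g'' := by
  have h0 : g' 0 = 0 := h3.hasDerivAt_eq_zero h1.self_of_nhds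
  refine ⟨h0, ?_⟩
  by_contra hneg
  push Not at hneg
  have e1 : deriv g =ᶠ[𝓝 0] g' := h1.mono fun t ht => ht.deriv
  have e2 : deriv (deriv g) 0 = g'' := by rw [e1.deriv_eq]; exact h2.deriv
  have h4 : IsLocalMax g 0 := isLocalMax_of_deriv_deriv_neg (by rw [e2]; exact hneg)
    (by rw [h1.self_of_nhds.deriv]; exact h0) h1.self_of_nhds.continuousAt
  have h5 : ∀ᶠ t in 𝓝 (0 : ℝ), g t = g 0 := by
    filter_upwards [h3, h4] with t ht1 ht2
    exact le_antisymm ht2 ht1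
  have h6 : ∀ᶠ t in 𝓝 (0 : ℝ), g' t = 0 := by
    filter_upwards [h5.eventually_nhds, h1] with t ht1 ht2
    have h7 : g =ᶠ[𝓝 t] fun _ => g 0 := ht1
    have h8 := (h7.hasDerivAt_iff.mp ht2)
    exact h8.unique (hasDerivAt_const t (g 0))
  have h7 : g' =ᶠ[𝓝 0] fun _ => (0 : ℝ) := h6
  have h8 := h2.unique ((hasDerivAt_const (0 : ℝ) (0 : ℝ)).congr_of_eventuallyEq h7)
  linarith

/-- rotation by a right angle -/
noncomputable def J (x : E 2) : E 2 := !₂[-x 1, x 0]

@[simp] lemma J_zero (x : E 2) : J x 0 = -x 1 := rfl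
@[simp] lemma J_one (x : E 2) : J x 1 = x 0 := rfl

/-- the point with polar coordinates `r, θ` -/
noncomputable def polar (r θ : ℝ) : E 2 := !₂[r * cos θ, r * sin θ]

@[simp] lemma polar_zero (r θ : ℝ) : polar r θ 0 = r * cos θ := rfl
@[simp] lemma polar_one (r θ : ℝ) : polar r θ 1 = r * sin θ := rfl

lemma ext2 {x y : E 2} (h0 : x 0 = y 0) (h1 : x 1 = y 1) : x = y := by
  ext i
  fin_cases i
  · exact h0
  · exact h1

/-- the logarithmic spiral through `x` -/
noncomputable def spiral (x : E 2) (a b t : ℝ) : E 2 :=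
  (exp (a * t) * cos (b * t)) • x + (exp (a * t) * sin (b * t)) • J x

/-- its velocity -/
noncomputable def spiral' (x : E 2) (a b t : ℝ) : E 2 :=
  (exp (a * t) * (a * cos (b * t) - b * sin (b * t))) • x +
    (exp (a * t) * (a * sin (b * t) + b * cos (b * t))) • J x

lemma hasDerivAt_spiral (x : E 2) (a b t : ℝ) :
    HasDerivAt (spiral x a b) (spiral' x a b t) t := by
  have h1 : HasDerivAt (fun t : ℝ => exp (a * t)) (exp (a * t) * a) t := by
    simpa using ((hasDerivAt_id' t).const_mul a).exp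
  have h2 : HasDerivAt (fun t : ℝ => cos (b * t)) (-sin (b * t) * b) t := by
    simpa using ((hasDerivAt_id' t).const_mul b).cos
  have h3 : HasDerivAt (fun t : ℝ => sin (b * t)) (cos (b * t) * b) t := by
    simpa using ((hasDerivAt_id' t).const_mul b).sin
  have h4 := ((h1.fun_mul h2).smul_const x).fun_add ((h1.fun_mul h3).smul_const (J x))
  refine h4.congr_deriv ?_
  unfold spiral'
  congr 2 <;> ring

lemma hasDerivAt_spiral' (x : E 2) (a b : ℝ) :
    HasDerivAt (spiral' x a b) ((a ^ 2 - b ^ 2) • x + (2 * a * b) • J x) 0 := by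
  have h1 : HasDerivAt (fun t : ℝ => exp (a * t)) a 0 := by
    simpa using ((hasDerivAt_id' (0 : ℝ)).const_mul a).exp
  have h2 : HasDerivAt (fun t : ℝ => cos (b * t)) 0 0 := by
    simpa using ((hasDerivAt_id' (0 : ℝ)).const_mul b).cos
  have h3 : HasDerivAt (fun t : ℝ => sin (b * t)) b 0 := by
    simpa using ((hasDerivAt_id' (0 : ℝ)).const_mul b).sin
  have h4 := ((h1.fun_mul ((h2.const_mul a).fun_sub (h3.const_mul b))).smul_const x).fun_add
    ((h1.fun_mul ((h3.const_mul a).fun_add (h2.const_mul b))).smul_const (J x))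
  refine h4.congr_deriv ?_
  simp only [mul_zero, cos_zero, sin_zero, exp_zero]
  congr 2 <;> ring

lemma spiral_zero (x : E 2) (a b : ℝ) : spiral x a b 0 = x := by
  simp [spiral]

lemma spiral'_zero (x : E 2) (a b : ℝ) : spiral' x a b 0 = a • x + b • J x := by
  simp [spiral']

lemma spiral_polar (r θ a b t : ℝ) :
    spiral (polar r θ) a b t = polar (r * exp (a * t)) (θ + b * t) := by
  apply ext2
  · simp [spiral, cos_add]
    ring
  · simp [spiral, sin_add]
    ring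

section Core

variable {γ r₀ θ₀ s2 : ℝ} {s s1 : ℝ → ℝ} {U φ : E 2 → ℝ}

lemma core (hr : 0 < r₀) (hs : ∀ θ, HasDerivAt s (s1 θ) θ) (hs1 : HasDerivAt s1 s2 θ₀)
    (hU : ∀ r > 0, ∀ θ, U (polar r θ) = r ^ γ * s θ)
    (hφ : ContDiffAt ℝ 2 φ (polar r₀ θ₀))
    (hmax : IsLocalMax (fun x => U x - φ x) (polar r₀ θ₀)) (a b : ℝ) :
    fderiv ℝ φ (polar r₀ θ₀) (a • polar r₀ θ₀ + b • J (polar r₀ θ₀)) =
      r₀ ^ γ * (γ * a * s θ₀ + b * s1 θ₀) ∧
    r₀ ^ γ * (γ ^ 2 * a ^ 2 * s θ₀ + 2 * γ * a * b * s1 θ₀ + b ^ 2 * s2) ≤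
      hess φ (polar r₀ θ₀) (a • polar r₀ θ₀ + b • J (polar r₀ θ₀))
        (a • polar r₀ θ₀ + b • J (polar r₀ θ₀)) +
      fderiv ℝ φ (polar r₀ θ₀)
        ((a ^ 2 - b ^ 2) • polar r₀ θ₀ + (2 * a * b) • J (polar r₀ θ₀)) := by
  set x₀ := polar r₀ θ₀ with hx₀
  -- the test function along the spiral
  have hev : ∀ᶠ y in 𝓝 x₀, DifferentiableAt ℝ φ y :=
    (hφ.eventually (by simp)).mono fun y hy => hy.differentiableAt (by norm_num)
  have hc0 : Tendsto (spiral x₀ a b) (𝓝 0) (𝓝 x₀) := by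
    have := (hasDerivAt_spiral x₀ a b 0).continuousAt.tendsto
    rwa [spiral_zero] at this
  have hev' : ∀ᶠ t in 𝓝 (0 : ℝ), DifferentiableAt ℝ φ (spiral x₀ a b t) := hc0.eventually hev
  have hd1 : ∀ᶠ t in 𝓝 (0 : ℝ), HasDerivAt (fun t => φ (spiral x₀ a b t))
      (fderiv ℝ φ (spiral x₀ a b t) (spiral' x₀ a b t)) t := by
    filter_upwards [hev'] with t ht
    exact ht.hasFDerivAt.comp_hasDerivAt t (hasDerivAt_spiral x₀ a b t)
  have hd2 : HasDerivAt (fun t => fderiv ℝ φ (spiral x₀ a b t) (spiral' x₀ a b t))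
      (hess φ x₀ (a • x₀ + b • J x₀) (a • x₀ + b • J x₀) +
        fderiv ℝ φ x₀ ((a ^ 2 - b ^ 2) • x₀ + (2 * a * b) • J x₀)) 0 := by
    have h1 : HasFDerivAt (fderiv ℝ φ) (hess φ x₀) (spiral x₀ a b 0) := by
      rw [spiral_zero]
      have : ContDiffAt ℝ 1 (fderiv ℝ φ) x₀ := hφ.fderiv_right (by norm_num)
      exact (this.differentiableAt (by norm_num)).hasFDerivAt
    have h2 : HasDerivAt (fun t => fderiv ℝ φ (spiral x₀ a b t))
        (hess φ x₀ (spiral' x₀ a b 0)) 0 := h1.comp_hasDerivAt 0 (hasDerivAt_spiral x₀ a b 0)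
    have h3 := h2.clm_apply (hasDerivAt_spiral' x₀ a b)
    rw [spiral_zero, spiral'_zero] at h3
    exact h3
  -- the function `U` along the spiral
  have hV : ∀ t, U (spiral x₀ a b t) = r₀ ^ γ * (exp (γ * a * t) * s (θ₀ + b * t)) := by
    intro t
    rw [hx₀, spiral_polar, hU _ (by positivity), mul_rpow hr.le (exp_pos _).le, ← exp_mul]
    ring_nf
  have hlin : ∀ t, HasDerivAt (fun t => θ₀ + b * t) b t := fun t => by
    simpa using ((hasDerivAt_id' t).const_mul b).const_add θ₀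
  have hexp : ∀ t, HasDerivAt (fun t => exp (γ * a * t)) (exp (γ * a * t) * (γ * a)) t :=
    fun t => by simpa using ((hasDerivAt_id' t).const_mul (γ * a)).exp
  have hV1 : ∀ t, HasDerivAt (fun t => U (spiral x₀ a b t))
      (r₀ ^ γ * (exp (γ * a * t) * (γ * a * s (θ₀ + b * t) + b * s1 (θ₀ + b * t)))) t := by
    intro t
    have h1 : HasDerivAt (fun t => s (θ₀ + b * t)) (s1 (θ₀ + b * t) * b) t :=
      (hs (θ₀ + b * t)).comp t (hlin t)
    have h2 := ((hexp t).fun_mul h1).const_mul (r₀ ^ γ)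
    rw [funext hV]
    exact h2.congr_deriv (by ring)
  have hV2 : HasDerivAt
      (fun t => r₀ ^ γ * (exp (γ * a * t) * (γ * a * s (θ₀ + b * t) + b * s1 (θ₀ + b * t))))
      (r₀ ^ γ * (γ ^ 2 * a ^ 2 * s θ₀ + 2 * γ * a * b * s1 θ₀ + b ^ 2 * s2)) 0 := by
    have e0 : θ₀ + b * 0 = θ₀ := by ring
    have h1 : HasDerivAt (fun t => s (θ₀ + b * t)) (s1 θ₀ * b) 0 := by
      have := (hs (θ₀ + b * 0)).comp 0 (hlin 0)
      rwa [e0] at this
    have h2 : HasDerivAt (fun t => s1 (θ₀ + b * t)) (s2 * b) 0 := by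
      have h5 : HasDerivAt s1 s2 (θ₀ + b * 0) := by rw [e0]; exact hs1
      exact h5.comp 0 (hlin 0)
    have h3 := (((hexp 0).fun_mul ((h1.const_mul (γ * a)).fun_add
      (h2.const_mul b))).const_mul (r₀ ^ γ))
    refine h3.congr_deriv ?_
    rw [e0]
    simp only [mul_zero, exp_zero]
    ring
  have hmin : IsLocalMin (fun t => φ (spiral x₀ a b t) - U (spiral x₀ a b t)) 0 := by
    have h1 := hc0.eventually hmax
    have h2 : ∀ᶠ t in 𝓝 (0 : ℝ), φ (spiral x₀ a b 0) - U (spiral x₀ a b 0) ≤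
        φ (spiral x₀ a b t) - U (spiral x₀ a b t) := by
      filter_upwards [h1] with t ht
      rw [spiral_zero]
      linarith
    exact h2
  have key := second_deriv_nonneg
    (g := fun t => φ (spiral x₀ a b t) - U (spiral x₀ a b t))
    (by filter_upwards [hd1] with t ht; exact ht.fun_sub (hV1 t)) (hd2.fun_sub hV2) hmin
  obtain ⟨k1, k2⟩ := key
  simp only [spiral_zero, spiral'_zero, mul_zero, add_zero, exp_zero, one_mul] at k1
  constructor
  · linarith
  · linarith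

end Core

end Pool.Agent.Helper37.PL
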