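import Mathlib
import Pool.Agent.Helper37.PL.Core

/-!
# The normalized `p`-Laplacian of test functions touching a homogeneous function
-/

namespace Pool.Agent.Helper37.PL

open Real Set Filter Topology

lemma inner2 (x y : E 2) : inner ℝ x y = x 0 * y 0 + x 1 * y 1 := by
  rw [PiLp.inner_apply, Fin.sum_univ_two]
  simp [mul_comm]

lemma normsq2 (x : E 2) : ‖x‖ ^ 2 = x 0 ^ 2 + x 1 ^ 2 := by
  rw [EuclideanSpace.real_norm_sq_eq, Fin.sum_univ_two]

lemma norm_polar {r : ℝ} (hr : 0 ≤ r) (θ : ℝ) : ‖polar r θ‖ = r := by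
  have h : ‖polar r θ‖ ^ 2 = r ^ 2 := by
    rw [normsq2]
    simp only [polar_zero, polar_one]
    nlinarith [sin_sq_add_cos_sq θ]
  exact (sq_eq_sq₀ (norm_nonneg _) hr).mp h

/-- first standard basis vector -/
noncomputable def e0 : E 2 := EuclideanSpace.single 0 1
/-- second standard basis vector -/
noncomputable def e1 : E 2 := EuclideanSpace.single 1 1

lemma decomp2 (v : E 2) : v = v 0 • e0 + v 1 • e1 := by
  apply ext2 <;> simp [e0, e1]

lemma bil_expand (X : Bil 2) (v : E 2) :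
    X v v = v 0 ^ 2 * X e0 e0 + v 0 * v 1 * (X e0 e1 + X e1 e0) + v 1 ^ 2 * X e1 e1 := by
  conv_lhs => rw [decomp2 v]
  simp only [map_add, map_smul, _root_.add_apply, _root_.smul_apply,
    smul_eq_mul]
  ring

/-- the trace -/
lemma trace2 (X : Bil 2) (v : E 2) :
    ‖v‖ ^ 2 * (∑ i, X (EuclideanSpace.single i 1) (EuclideanSpace.single i 1)) =
      X v v + X (J v) (J v) := by
  have h : (∑ i, X (EuclideanSpace.single i 1) (EuclideanSpace.single i 1)) =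
      X e0 e0 + X e1 e1 := by
    rw [Fin.sum_univ_two]; rfl
  rw [h, normsq2, bil_expand X v, bil_expand X (J v)]
  simp only [J_zero, J_one]
  ring

/-- formula for the operator along a multiple of the gradient -/
lemma plap_eq (p c : ℝ) (hc : c ≠ 0) (h : E 2) (hh : ‖h‖ ^ 2 ≠ 0) (X : Bil 2) :
    plap p (c • h) X = (X (J h) (J h) + (p - 1) * X h h) / ‖h‖ ^ 2 := by
  unfold plap
  have h1 : (∑ i, X (EuclideanSpace.single i 1) (EuclideanSpace.single i 1)) =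
      (X h h + X (J h) (J h)) / ‖h‖ ^ 2 := by
    rw [eq_div_iff hh, ← trace2 X h]; ring
  have h2 : X (c • h) (c • h) / ‖c • h‖ ^ 2 = X h h / ‖h‖ ^ 2 := by
    rw [norm_smul, mul_pow, Real.norm_eq_abs, sq_abs]
    simp only [map_smul, _root_.smul_apply, smul_eq_mul]
    field_simp
  rw [h1, h2]
  field_simp
  ring

lemma fderiv_neg' (φ : E 2 → ℝ) : fderiv ℝ (fun x => -φ x) = fun x => -fderiv ℝ φ x := by
  funext x
  exact fderiv_fun_neg

lemma gradient_neg' (φ : E 2 → ℝ) (x : E 2) :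
    gradient (fun x => -φ x) x = -gradient φ x := by
  unfold gradient
  rw [fderiv_neg', map_neg]

lemma hess_neg' (φ : E 2 → ℝ) (x : E 2) : hess (fun x => -φ x) x = -hess φ x := by
  unfold hess
  rw [fderiv_neg']
  exact fderiv_fun_neg

lemma plap_neg {n : ℕ} (p : ℝ) (q : E n) (X : Bil n) : plap p (-q) (-X) = -plap p q X := by
  unfold plap
  simp only [_root_.neg_apply, map_neg, neg_neg, norm_neg, Finset.sum_neg_distrib]
  ring

lemma Nop_neg (κ γ a b c : ℝ) : Nop κ γ (-a) (-b) (-c) = -Nop κ γ a b c := by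
  unfold Nop
  have h : γ ^ 2 * (-a) ^ 2 + (-b) ^ 2 = γ ^ 2 * a ^ 2 + b ^ 2 := by ring
  rw [h]
  have h2 : γ ^ 3 * (γ - 1) * (-a) ^ 3 + γ * (2 * γ - 1) * (-a * (-b) ^ 2) + (-b) ^ 2 * -c =
      -(γ ^ 3 * (γ - 1) * a ^ 3 + γ * (2 * γ - 1) * (a * b ^ 2) + b ^ 2 * c) := by ring
  rw [h2, neg_div]
  ring

section

variable {p γ r₀ θ₀ s2 : ℝ} {s s1 : ℝ → ℝ} {U φ : E 2 → ℝ}

/-- a test function touching a homogeneous function from above -/
lemma plap_ge (hp : 1 < p) (hr : 0 < r₀) (hs : ∀ θ, HasDerivAt s (s1 θ) θ)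
    (hs1 : HasDerivAt s1 s2 θ₀) (hne : γ ^ 2 * (s θ₀) ^ 2 + (s1 θ₀) ^ 2 ≠ 0)
    (hU : ∀ r > 0, ∀ θ, U (polar r θ) = r ^ γ * s θ)
    (hφ : ContDiffAt ℝ 2 φ (polar r₀ θ₀))
    (hmax : IsLocalMax (fun x => U x - φ x) (polar r₀ θ₀)) :
    gradient φ (polar r₀ θ₀) ≠ 0 ∧
    r₀ ^ (γ - 2) * Nop (p - 2) γ (s θ₀) (s1 θ₀) s2 ≤
      plap p (gradient φ (polar r₀ θ₀)) (hess φ (polar r₀ θ₀)) := by
  have hcore := fun a b => core hr hs hs1 hU hφ hmax a b
  set x₀ := polar r₀ θ₀ with hx₀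
  set R := r₀ ^ γ with hR
  have hRpos : 0 < R := rpow_pos_of_pos hr γ
  have hnx : x₀ 0 ^ 2 + x₀ 1 ^ 2 = r₀ ^ 2 := by
    rw [← normsq2, hx₀, norm_polar hr.le]
  set a0 := s θ₀ with ha0
  set b0 := s1 θ₀ with hb0
  set h : E 2 := (γ * a0) • x₀ + b0 • J x₀ with hh
  have hJh : J h = (-b0) • x₀ + (γ * a0) • J x₀ := by
    apply ext2
    · simp [hh]
    · simp [hh]; ring
  have hnorm : ‖h‖ ^ 2 = r₀ ^ 2 * (γ ^ 2 * a0 ^ 2 + b0 ^ 2) := by
    rw [normsq2, ← hnx]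
    simp [hh]
    ring
  have hnorm0 : ‖h‖ ^ 2 ≠ 0 := by
    rw [hnorm]; positivity
  -- the gradient
  have hgrad : gradient φ x₀ = (R / r₀ ^ 2) • h := by
    have g1 : inner ℝ (gradient φ x₀) x₀ = R * (γ * a0) := by
      rw [inner_gradient_left]
      have := (hcore 1 0).1
      simpa using this
    have g2 : inner ℝ (gradient φ x₀) (J x₀) = R * b0 := by
      rw [inner_gradient_left]
      have := (hcore 0 1).1
      simpa using this
    rw [inner2] at g1 g2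
    simp only [J_zero, J_one] at g2
    have hr2 : r₀ ^ 2 ≠ 0 := by positivity
    apply ext2
    · have : r₀ ^ 2 * (gradient φ x₀) 0 = R * h 0 := by
        rw [← hnx]
        simp only [hh, PiLp.add_apply, PiLp.smul_apply, J_zero, smul_eq_mul]
        linear_combination x₀ 0 * g1 - x₀ 1 * g2
      simp only [PiLp.smul_apply, smul_eq_mul]
      field_simp
      linarith
    · have : r₀ ^ 2 * (gradient φ x₀) 1 = R * h 1 := by
        rw [← hnx]
        simp only [hh, PiLp.add_apply, PiLp.smul_apply, J_one, smul_eq_mul]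
        linear_combination x₀ 1 * g1 + x₀ 0 * g2
      simp only [PiLp.smul_apply, smul_eq_mul]
      field_simp
      linarith
  have hc : R / r₀ ^ 2 ≠ 0 := by positivity
  have hh0 : h ≠ 0 := by
    intro h0
    rw [h0] at hnorm0
    simp at hnorm0
  refine ⟨by rw [hgrad]; exact smul_ne_zero hc hh0, ?_⟩
  rw [hgrad, plap_eq p _ hc h hnorm0, le_div_iff₀ (by positivity)]
  -- the two second derivatives
  have i1 := (hcore (γ * a0) b0).2
  have i2 := (hcore (-b0) (γ * a0)).2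
  rw [(hcore ((γ * a0) ^ 2 - b0 ^ 2) (2 * (γ * a0) * b0)).1] at i1
  rw [(hcore ((-b0) ^ 2 - (γ * a0) ^ 2) (2 * (-b0) * (γ * a0))).1, ← hJh] at i2
  rw [← hh] at i1
  have hrγ : r₀ ^ (γ - 2) = R / r₀ ^ 2 := by
    rw [rpow_sub hr, rpow_two]
  rw [hrγ, hnorm]
  have hN : Nop (p - 2) γ a0 b0 s2 * (γ ^ 2 * a0 ^ 2 + b0 ^ 2) =
      (γ ^ 2 * a0 + s2) * (γ ^ 2 * a0 ^ 2 + b0 ^ 2) + (p - 2) *
        (γ ^ 3 * (γ - 1) * a0 ^ 3 + γ * (2 * γ - 1) * (a0 * b0 ^ 2) + b0 ^ 2 * s2) := by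
    unfold Nop
    field_simp
  have e : R / r₀ ^ 2 * Nop (p - 2) γ a0 b0 s2 * (r₀ ^ 2 * (γ ^ 2 * a0 ^ 2 + b0 ^ 2)) =
      R * (Nop (p - 2) γ a0 b0 s2 * (γ ^ 2 * a0 ^ 2 + b0 ^ 2)) := by
    field_simp
  rw [e, hN]
  have i3 := mul_le_mul_of_nonneg_left i1 (by linarith : 0 ≤ p - 1)
  linarith

/-- a test function touching a homogeneous function from below -/
lemma plap_le (hp : 1 < p) (hr : 0 < r₀) (hs : ∀ θ, HasDerivAt s (s1 θ) θ)
    (hs1 : HasDerivAt s1 s2 θ₀) (hne : γ ^ 2 * (s θ₀) ^ 2 + (s1 θ₀) ^ 2 ≠ 0)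
    (hU : ∀ r > 0, ∀ θ, U (polar r θ) = r ^ γ * s θ)
    (hφ : ContDiffAt ℝ 2 φ (polar r₀ θ₀))
    (hmin : IsLocalMin (fun x => U x - φ x) (polar r₀ θ₀)) :
    gradient φ (polar r₀ θ₀) ≠ 0 ∧
    plap p (gradient φ (polar r₀ θ₀)) (hess φ (polar r₀ θ₀)) ≤
      r₀ ^ (γ - 2) * Nop (p - 2) γ (s θ₀) (s1 θ₀) s2 := by
  have h := plap_ge (p := p) (γ := γ) (r₀ := r₀) (θ₀ := θ₀) (s2 := -s2) (s := fun θ => -s θ)
    (s1 := fun θ => -s1 θ) (U := fun x => -U x) (φ := fun x => -φ x) hp hr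
    (fun θ => (hs θ).neg) hs1.neg (by simpa using hne)
    (fun r hr θ => by rw [hU r hr θ]; ring) hφ.neg
    (by
      have : IsLocalMax (fun x => -(U x - φ x)) (polar r₀ θ₀) := hmin.neg
      refine this.congr ?_
      exact Eventually.of_forall fun x => by ring)
  rw [gradient_neg', hess_neg', plap_neg, Nop_neg] at h
  refine ⟨by simpa using h.1, ?_⟩
  have := h.2
  linarith

end

/-- comparison of the value with the upper envelope -/
lemma le_upperEnv {n : ℕ} {p : ℝ} {q : E n} {X : Bil n} {c : ℝ}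
    (h : ∃ᶠ y in 𝓝[{y : E n × Bil n | y.1 ≠ 0}] (q, X), c ≤ plap p y.1 y.2) :
    (c : EReal) ≤ upperEnv p q X := by
  unfold upperEnv
  exact le_limsup_of_frequently_le (h.mono fun y hy => by exact_mod_cast hy)

lemma lowerEnv_le {n : ℕ} {p : ℝ} {q : E n} {X : Bil n} {c : ℝ}
    (h : ∃ᶠ y in 𝓝[{y : E n × Bil n | y.1 ≠ 0}] (q, X), plap p y.1 y.2 ≤ c) :
    lowerEnv p q X ≤ (c : EReal) := by
  unfold lowerEnv
  exact liminf_le_of_frequently_le (h.mono fun y hy => by exact_mod_cast hy)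

lemma frequently_self {n : ℕ} {q : E n} {X : Bil n} (hq : q ≠ 0) {P : E n × Bil n → Prop}
    (h : P (q, X)) : ∃ᶠ y in 𝓝[{y : E n × Bil n | y.1 ≠ 0}] (q, X), P y := by
  intro hcon
  have h1 : pure (q, X) ≤ 𝓝[{y : E n × Bil n | y.1 ≠ 0}] (q, X) := pure_le_nhdsWithin hq
  exact (h1 hcon) h

lemma frequently_zero {X : Bil 2} {P : E 2 × Bil 2 → Prop}
    (h : ∀ t : ℝ, 0 < t → P (t • e0, X)) :
    ∃ᶠ y in 𝓝[{y : E 2 × Bil 2 | y.1 ≠ 0}] (0, X), P y := by
  have ht : Tendsto (fun t : ℝ => (t • e0, X)) (𝓝[>] 0) (𝓝[{y : E 2 × Bil 2 | y.1 ≠ 0}] (0, X)) := by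
    apply tendsto_nhdsWithin_of_tendsto_nhds_of_eventually_within
    · have : Continuous fun t : ℝ => ((t • e0, X) : E 2 × Bil 2) := by fun_prop
      have h1 := this.tendsto 0
      simp only [zero_smul] at h1
      exact h1.mono_left nhdsWithin_le_nhds
    · filter_upwards [self_mem_nhdsWithin] with t ht
      refine smul_ne_zero (ne_of_gt ht) ?_
      intro h0
      have := congrArg (fun v : E 2 => v 0) h0
      simp [e0] at this
  refine ht.frequently ?_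
  apply Eventually.frequently
  filter_upwards [self_mem_nhdsWithin] with t ht
  exact h t ht

lemma norm_e0 : ‖e0‖ = 1 := by simp [e0]

lemma J_e0 : J e0 = e1 := by
  apply ext2 <;> simp [e0, e1]

/-- the value of the operator near the zero gradient, in the direction of `e0` -/
lemma plap_smul_e0 (p : ℝ) {t : ℝ} (ht : 0 < t) (X : Bil 2) :
    plap p (t • e0) X = X e1 e1 + (p - 1) * X e0 e0 := by
  rw [plap_eq p t ht.ne' e0 (by rw [norm_e0]; norm_num), norm_e0, J_e0]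
  ring

end Pool.Agent.Helper37.PL
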