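import Mathlib
import Pool.Agent.Helper37.PL.Op

/-!
# From a pair of homogeneous profiles to two solutions of one Dirichlet problem
-/

namespace Pool.Agent.Helper37.PL

open Real Set Filter Topology

/-- the complex number of a point of the plane -/
noncomputable def toC (x : E 2) : ℂ := ⟨x 0, x 1⟩

/-- the polar angle -/
noncomputable def argE (x : E 2) : ℝ := Complex.arg (toC x)

lemma toC_continuous : Continuous toC := by
  have : toC = fun x : E 2 => Complex.equivRealProdCLM.symm (x 0, x 1) := by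
    funext x
    rfl
  rw [this]
  exact Complex.equivRealProdCLM.symm.continuous.comp (by fun_prop)

lemma norm_toC (x : E 2) : ‖toC x‖ = ‖x‖ := by
  have h : ‖toC x‖ ^ 2 = ‖x‖ ^ 2 := by
    rw [normsq2, ← Complex.normSq_eq_norm_sq, Complex.normSq_apply]
    simp [toC]
    ring
  exact (sq_eq_sq₀ (norm_nonneg _) (norm_nonneg _)).mp h

lemma polar_argE (x : E 2) : polar ‖x‖ (argE x) = x := by
  apply ext2
  · rw [polar_zero, ← norm_toC]
    exact Complex.norm_mul_cos_arg (toC x)
  · rw [polar_one, ← norm_toC]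
    exact Complex.norm_mul_sin_arg (toC x)

lemma polar_argE_neg (x : E 2) : polar ‖x‖ (Complex.arg (-toC x) + π) = x := by
  have h1 := Complex.norm_mul_cos_arg (-toC x)
  have h2 := Complex.norm_mul_sin_arg (-toC x)
  rw [norm_neg, norm_toC] at h1 h2
  apply ext2
  · rw [polar_zero, cos_add_pi, mul_neg, h1]
    simp [toC]
  · rw [polar_one, sin_add_pi, mul_neg, h2]
    simp [toC]

lemma periodic_argE_polar {s : ℝ → ℝ} (hper : Function.Periodic s (2 * π)) {r : ℝ} (hr : 0 < r)
    (θ : ℝ) : s (argE (polar r θ)) = s θ := by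
  have h : toC (polar r θ) = r * (Complex.cos θ + Complex.sin θ * Complex.I) := by
    apply Complex.ext
    · simp [toC, polar, ← Complex.ofReal_cos, ← Complex.ofReal_sin]
    · simp [toC, polar, ← Complex.ofReal_cos, ← Complex.ofReal_sin]
  unfold argE
  rw [h, Complex.arg_mul_cos_add_sin_mul_I_eq_toIocMod hr]
  unfold toIocMod
  exact hper.sub_zsmul_eq _

/-- the function `|x| ^ γ s(θ)` -/
noncomputable def polarFn (γ : ℝ) (s : ℝ → ℝ) (x : E 2) : ℝ := ‖x‖ ^ γ * s (argE x)

lemma polarFn_polar {γ : ℝ} {s : ℝ → ℝ} (hper : Function.Periodic s (2 * π)) {r : ℝ}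
    (hr : 0 < r) (θ : ℝ) : polarFn γ s (polar r θ) = r ^ γ * s θ := by
  unfold polarFn
  rw [norm_polar hr.le, periodic_argE_polar hper hr]

lemma polarFn_zero {γ : ℝ} (hγ : 0 < γ) (s : ℝ → ℝ) : polarFn γ s 0 = 0 := by
  unfold polarFn
  rw [norm_zero, zero_rpow hγ.ne', zero_mul]

lemma argE_mem (x : E 2) : argE x ∈ Icc (-π) π :=
  ⟨(Complex.neg_pi_lt_arg _).le, Complex.arg_le_pi _⟩

lemma exists_bound {s : ℝ → ℝ} (hs : Continuous s) : ∃ M, 0 ≤ M ∧ ∀ x : E 2, |s (argE x)| ≤ M := by
  obtain ⟨M, hM⟩ := isCompact_Icc.exists_bound_of_continuousOn (s := Icc (-π) π) hs.continuousOn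
  refine ⟨|M|, abs_nonneg _, fun x => ?_⟩
  have := hM _ (argE_mem x)
  rw [Real.norm_eq_abs] at this
  exact this.trans (le_abs_self _)

lemma polarFn_abs_le {γ : ℝ} {s : ℝ → ℝ} {M : ℝ} (hM : ∀ x : E 2, |s (argE x)| ≤ M) (x : E 2) :
    |polarFn γ s x| ≤ M * ‖x‖ ^ γ := by
  unfold polarFn
  have h1 : 0 ≤ ‖x‖ ^ γ := rpow_nonneg (norm_nonneg _) _
  rw [abs_mul, abs_of_nonneg h1, mul_comm]
  exact mul_le_mul_of_nonneg_right (hM x) h1

lemma continuous_polarFn {γ : ℝ} (hγ : 0 < γ) {s : ℝ → ℝ} (hs : Continuous s)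
    (hper : Function.Periodic s (2 * π)) : Continuous (polarFn γ s) := by
  rw [continuous_iff_continuousAt]
  intro x
  by_cases hx : x = 0
  · subst hx
    obtain ⟨M, -, hM⟩ := exists_bound hs
    rw [ContinuousAt, polarFn_zero hγ]
    have h1 : Tendsto (fun x : E 2 => M * ‖x‖ ^ γ) (𝓝 0) (𝓝 0) := by
      have h2 : Continuous fun x : E 2 => M * ‖x‖ ^ γ := by
        apply continuous_const.mul
        exact continuous_norm.rpow_const fun x => Or.inr hγ.le
      have h3 := h2.tendsto 0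
      simpa [zero_rpow hγ.ne'] using h3
    exact squeeze_zero_norm (fun x => by rw [Real.norm_eq_abs]; exact polarFn_abs_le hM x) h1
  · have hz : toC x ≠ 0 := by
      intro h
      apply hx
      rw [← norm_eq_zero, ← norm_toC, h, norm_zero]
    have hn : ContinuousAt (fun x : E 2 => ‖x‖ ^ γ) x :=
      (continuous_norm.rpow_const fun x => Or.inr hγ.le).continuousAt
    rcases Complex.mem_slitPlane_or_neg_mem_slitPlane hz with h | h
    · have h1 : ContinuousAt argE x :=
        (Complex.continuousAt_arg h).comp toC_continuous.continuousAt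
      exact hn.mul (hs.continuousAt.comp h1)
    · have h1 : ContinuousAt (fun y : E 2 => Complex.arg (-toC y)) x :=
        ContinuousAt.comp (f := fun y : E 2 => -toC y) (Complex.continuousAt_arg h)
          toC_continuous.neg.continuousAt
      have h2 : ContinuousAt (fun y : E 2 => ‖y‖ ^ γ * s (Complex.arg (-toC y) + π)) x :=
        hn.mul (ContinuousAt.comp (f := fun y : E 2 => Complex.arg (-toC y) + π)
          hs.continuousAt (h1.add continuousAt_const))
      refine h2.congr ?_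
      filter_upwards [isOpen_ne.mem_nhds hx] with y hy
      conv_rhs => rw [← polar_argE_neg y]
      rw [polarFn_polar hper (norm_pos_iff.mpr hy)]

/-- test functions with a minorant `-M |x| ^ γ`, `γ > 2` -/
lemma origin_test {γ M : ℝ} (hγ : 2 < γ) (hM : 0 ≤ M) {φ : E 2 → ℝ} (hφ : ContDiffAt ℝ 2 φ 0)
    (h : ∀ᶠ x in 𝓝 (0 : E 2), φ 0 - M * ‖x‖ ^ γ ≤ φ x) :
    gradient φ 0 = 0 ∧ ∀ v, 0 ≤ hess φ 0 v v := by
  have key : ∀ v : E 2, fderiv ℝ φ 0 v = 0 ∧ 0 ≤ hess φ 0 v v := by
    intro v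
    have hline : ∀ t : ℝ, HasDerivAt (fun t : ℝ => t • v) v t := fun t => by
      simpa using (hasDerivAt_id' t).smul_const v
    have hc0 : Tendsto (fun t : ℝ => t • v) (𝓝 0) (𝓝 0) := by
      have := (hline 0).continuousAt.tendsto
      simpa using this
    have hev : ∀ᶠ y in 𝓝 (0 : E 2), DifferentiableAt ℝ φ y :=
      (hφ.eventually (by simp)).mono fun y hy => hy.differentiableAt (by norm_num)
    have hd1 : ∀ᶠ t in 𝓝 (0 : ℝ), HasDerivAt (fun t : ℝ => φ (t • v))
        (fderiv ℝ φ (t • v) v) t := by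
      filter_upwards [hc0.eventually hev] with t ht
      exact ht.hasFDerivAt.comp_hasDerivAt t (hline t)
    have hd2 : HasDerivAt (fun t : ℝ => fderiv ℝ φ (t • v) v) (hess φ 0 v v) 0 := by
      have h1 : HasFDerivAt (fderiv ℝ φ) (hess φ 0) ((0 : ℝ) • v) := by
        rw [zero_smul]
        have : ContDiffAt ℝ 1 (fderiv ℝ φ) 0 := hφ.fderiv_right (by norm_num)
        exact (this.differentiableAt (by norm_num)).hasFDerivAt
      have h2 : HasDerivAt (fun t : ℝ => fderiv ℝ φ (t • v)) (hess φ 0 v) 0 :=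
        h1.comp_hasDerivAt 0 (hline 0)
      have h3 := h2.clm_apply (hasDerivAt_const (0 : ℝ) v)
      refine h3.congr_deriv ?_
      simp
    have hall : ∀ ε : ℝ, 0 < ε → fderiv ℝ φ 0 v = 0 ∧ 0 ≤ hess φ 0 v v + 2 * ε := by
      intro ε hε
      have hmin : IsLocalMin (fun t : ℝ => φ (t • v) + ε * t ^ 2) 0 := by
        have h1 : Tendsto (fun t : ℝ => M * ‖v‖ ^ γ * |t| ^ (γ - 2)) (𝓝 0) (𝓝 0) := by
          have h2 : Continuous fun t : ℝ => M * ‖v‖ ^ γ * |t| ^ (γ - 2) := by
            apply continuous_const.mul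
            exact continuous_abs.rpow_const fun x => Or.inr (by linarith)
          have h3 := h2.tendsto 0
          simpa [zero_rpow (by linarith : γ - 2 ≠ 0)] using h3
        have h4 : ∀ᶠ t in 𝓝 (0 : ℝ), φ ((0 : ℝ) • v) + ε * (0 : ℝ) ^ 2 ≤
            φ (t • v) + ε * t ^ 2 := by
          filter_upwards [hc0.eventually h, h1.eventually (ge_mem_nhds hε)] with t ht1 ht2
          rw [norm_smul, mul_rpow (norm_nonneg _) (norm_nonneg _), Real.norm_eq_abs] at ht1
          have e : |t| ^ γ = |t| ^ (γ - 2) * t ^ 2 := by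
            by_cases h0 : t = 0
            · subst h0; simp [zero_rpow (by linarith : γ ≠ 0)]
            · have hp : 0 < |t| := abs_pos.mpr h0
              rw [← sq_abs, ← rpow_two, ← rpow_add hp]
              ring_nf
          rw [e] at ht1
          have h5 : M * ‖v‖ ^ γ * |t| ^ (γ - 2) * t ^ 2 ≤ ε * t ^ 2 :=
            mul_le_mul_of_nonneg_right ht2 (sq_nonneg t)
          simp only [zero_smul]
          nlinarith
        exact h4
      have hq1 : ∀ t : ℝ, HasDerivAt (fun t : ℝ => ε * t ^ 2) (2 * ε * t) t := fun t => by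
        have := ((hasDerivAt_pow 2 t).const_mul ε)
        refine this.congr_deriv ?_
        simp; ring
      have hq2 : HasDerivAt (fun t : ℝ => 2 * ε * t) (2 * ε) 0 := by
        simpa using (hasDerivAt_id' (0 : ℝ)).const_mul (2 * ε)
      have := second_deriv_nonneg (g := fun t : ℝ => φ (t • v) + ε * t ^ 2)
        (by filter_upwards [hd1] with t ht; exact ht.fun_add (hq1 t)) (hd2.fun_add hq2) hmin
      simpa using this
    refine ⟨(hall 1 one_pos).1, ?_⟩
    apply le_of_forall_pos_le_add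
    intro ε hε
    have := (hall (ε / 2) (by positivity)).2
    linarith
  refine ⟨?_, fun v => (key v).2⟩
  have h0 : fderiv ℝ φ 0 = 0 := by
    ext v
    exact (key v).1
  unfold gradient
  rw [h0, map_zero]

section

variable {p γ : ℝ} {s s1 s2 a : ℝ → ℝ}

lemma isSubsolution_polarFn (hp : 1 < p) (hγ : 2 < γ) (hs : ∀ θ, HasDerivAt s (s1 θ) θ)
    (hs1 : ∀ θ, HasDerivAt s1 (s2 θ) θ) (hne : ∀ θ, γ ^ 2 * (s θ) ^ 2 + (s1 θ) ^ 2 ≠ 0)
    (hper : Function.Periodic s (2 * π)) (hN : ∀ θ, Nop (p - 2) γ (s θ) (s1 θ) (s2 θ) = a θ)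
    (c : ℝ) (Ω : Set (E 2)) :
    IsSubsolution p Ω (polarFn (γ - 2) a) (fun x => polarFn γ s x + c) := by
  intro x _ φ hφ hmax
  have hscont : Continuous s := continuous_iff_continuousAt.mpr fun θ => (hs θ).continuousAt
  have hmax' : IsLocalMax (fun y => polarFn γ s y - φ y) x := by
    have h1 : ∀ᶠ y in 𝓝 x, polarFn γ s y + c - φ y ≤ polarFn γ s x + c - φ x := hmax
    have h2 : ∀ᶠ y in 𝓝 x, polarFn γ s y - φ y ≤ polarFn γ s x - φ x := by
      filter_upwards [h1] with y hy
      linarith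
    exact h2
  by_cases hx : x = 0
  · subst hx
    obtain ⟨M, hM0, hM⟩ := exists_bound hscont
    have hev : ∀ᶠ y in 𝓝 (0 : E 2), φ 0 - M * ‖y‖ ^ γ ≤ φ y := by
      have h1 : ∀ᶠ y in 𝓝 (0 : E 2), polarFn γ s y - φ y ≤ polarFn γ s 0 - φ 0 := hmax'
      filter_upwards [h1] with y hy
      rw [polarFn_zero (by linarith)] at hy
      have := neg_abs_le (polarFn γ s y)
      have := polarFn_abs_le (γ := γ) hM y
      linarith
    obtain ⟨hg, hh⟩ := origin_test hγ hM0 hφ hev
    rw [hg, polarFn_zero (by linarith)]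
    apply le_upperEnv
    apply frequently_zero
    intro t ht
    simp only
    rw [plap_smul_e0 p ht]
    have := hh e1
    have := mul_nonneg (by linarith : 0 ≤ p - 1) (hh e0)
    linarith
  · have hr : 0 < ‖x‖ := norm_pos_iff.mpr hx
    have hxp : polar ‖x‖ (argE x) = x := polar_argE x
    have := plap_ge (p := p) (γ := γ) (U := polarFn γ s) (φ := φ) hp hr hs (hs1 (argE x))
      (hne _) (fun r hr θ => polarFn_polar hper hr θ) (by rw [hxp]; exact hφ)
      (by rw [hxp]; exact hmax')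
    rw [hxp, hN] at this
    apply le_upperEnv
    exact frequently_self this.1 this.2

lemma isSupersolution_polarFn (hp : 1 < p) (hγ : 2 < γ) (hs : ∀ θ, HasDerivAt s (s1 θ) θ)
    (hs1 : ∀ θ, HasDerivAt s1 (s2 θ) θ) (hne : ∀ θ, γ ^ 2 * (s θ) ^ 2 + (s1 θ) ^ 2 ≠ 0)
    (hper : Function.Periodic s (2 * π)) (hN : ∀ θ, Nop (p - 2) γ (s θ) (s1 θ) (s2 θ) = a θ)
    (c : ℝ) (Ω : Set (E 2)) :
    IsSupersolution p Ω (polarFn (γ - 2) a) (fun x => polarFn γ s x + c) := by
  intro x _ φ hφ hmin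
  have hscont : Continuous s := continuous_iff_continuousAt.mpr fun θ => (hs θ).continuousAt
  have hmin' : IsLocalMin (fun y => polarFn γ s y - φ y) x := by
    have h1 : ∀ᶠ y in 𝓝 x, polarFn γ s x + c - φ x ≤ polarFn γ s y + c - φ y := hmin
    have h2 : ∀ᶠ y in 𝓝 x, polarFn γ s x - φ x ≤ polarFn γ s y - φ y := by
      filter_upwards [h1] with y hy
      linarith
    exact h2
  by_cases hx : x = 0
  · subst hx
    obtain ⟨M, hM0, hM⟩ := exists_bound hscont
    have hev : ∀ᶠ y in 𝓝 (0 : E 2), -φ 0 - M * ‖y‖ ^ γ ≤ -φ y := by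
      have h1 : ∀ᶠ y in 𝓝 (0 : E 2), polarFn γ s 0 - φ 0 ≤ polarFn γ s y - φ y := hmin'
      filter_upwards [h1] with y hy
      rw [polarFn_zero (by linarith)] at hy
      have := le_abs_self (polarFn γ s y)
      have := polarFn_abs_le (γ := γ) hM y
      linarith
    obtain ⟨hg, hh⟩ := origin_test (φ := fun y => -φ y) hγ hM0 hφ.neg hev
    rw [gradient_neg', neg_eq_zero] at hg
    rw [hess_neg'] at hh
    rw [hg, polarFn_zero (by linarith)]
    apply lowerEnv_le
    apply frequently_zero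
    intro t ht
    simp only
    rw [plap_smul_e0 p ht]
    have h1 := hh e1
    have h2 := mul_nonneg (by linarith : 0 ≤ p - 1) (hh e0)
    simp only [_root_.neg_apply] at h1 h2
    linarith
  · have hr : 0 < ‖x‖ := norm_pos_iff.mpr hx
    have hxp : polar ‖x‖ (argE x) = x := polar_argE x
    have := plap_le (p := p) (γ := γ) (U := polarFn γ s) (φ := φ) hp hr hs (hs1 (argE x))
      (hne _) (fun r hr θ => polarFn_polar hper hr θ) (by rw [hxp]; exact hφ)
      (by rw [hxp]; exact hmin')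
    rw [hxp, hN] at this
    apply lowerEnv_le
    exact frequently_self this.1 this.2

end

/-- Two homogeneous profiles `s < t` with the same image under the operator give two solutions
of a Dirichlet problem. -/
theorem assemble {p γ : ℝ} (hp : 1 < p) (hγ : 2 < γ) {s s1 s2 t t1 t2 a : ℝ → ℝ}
    (hs : ∀ θ, HasDerivAt s (s1 θ) θ) (hs1 : ∀ θ, HasDerivAt s1 (s2 θ) θ)
    (ht : ∀ θ, HasDerivAt t (t1 θ) θ) (ht1 : ∀ θ, HasDerivAt t1 (t2 θ) θ)
    (hsne : ∀ θ, γ ^ 2 * (s θ) ^ 2 + (s1 θ) ^ 2 ≠ 0)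
    (htne : ∀ θ, γ ^ 2 * (t θ) ^ 2 + (t1 θ) ^ 2 ≠ 0)
    (hsper : Function.Periodic s (2 * π)) (htper : Function.Periodic t (2 * π))
    (hlt : ∀ θ, s θ < t θ) (ha : Continuous a) (haper : Function.Periodic a (2 * π))
    (hNs : ∀ θ, Nop (p - 2) γ (s θ) (s1 θ) (s2 θ) = a θ)
    (hNt : ∀ θ, Nop (p - 2) γ (t θ) (t1 θ) (t2 θ) = a θ) :
    ∃ (Ω : Set (E 2)) (f g u v : E 2 → ℝ), IsOpen Ω ∧ IsConnected Ω ∧ Bornology.IsBounded Ω ∧
      Continuous f ∧ Continuous g ∧ IsSolution p Ω f g u ∧ IsSolution p Ω f g v ∧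
      ∃ x ∈ Ω, u x ≠ v x := by
  have hscont : Continuous s := continuous_iff_continuousAt.mpr fun θ => (hs θ).continuousAt
  have htcont : Continuous t := continuous_iff_continuousAt.mpr fun θ => (ht θ).continuousAt
  have hγ0 : 0 < γ := by linarith
  have hU : Continuous (polarFn γ s) := continuous_polarFn hγ0 hscont hsper
  have hV : Continuous (polarFn γ t) := continuous_polarFn hγ0 htcont htper
  set Ω : Set (E 2) := {x | polarFn γ t x - polarFn γ s x < 1} with hΩ
  have hopen : IsOpen Ω := isOpen_lt (hV.sub hU) continuous_const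
  have h0 : (0 : E 2) ∈ Ω := by
    have : polarFn γ t 0 - polarFn γ s 0 < 1 := by
      rw [polarFn_zero hγ0, polarFn_zero hγ0]; norm_num
    exact this
  have hdiff : ∀ x : E 2, polarFn γ t x - polarFn γ s x = ‖x‖ ^ γ * (t (argE x) - s (argE x)) := by
    intro x; unfold polarFn; ring
  -- lower bound of the difference
  obtain ⟨d, hd, hdle⟩ : ∃ d > 0, ∀ x : E 2, d ≤ t (argE x) - s (argE x) := by
    obtain ⟨θ₀, -, hθ₀⟩ := isCompact_Icc.exists_isMinOn (s := Icc (-π) π)
      ⟨0, by constructor <;> linarith [pi_pos]⟩ (htcont.sub hscont).continuousOn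
    refine ⟨t θ₀ - s θ₀, sub_pos.mpr (hlt θ₀), fun x => ?_⟩
    exact hθ₀ (argE_mem x)
  have hstar : StarConvex ℝ 0 Ω := by
    intro y hy b c hb hc hbc
    rw [smul_zero, zero_add]
    have hc1 : c ≤ 1 := by linarith
    change polarFn γ t (c • y) - polarFn γ s (c • y) < 1
    rcases eq_or_lt_of_le hc with h | h
    · rw [← h, zero_smul]; exact h0
    · by_cases hy0 : y = 0
      · rw [hy0, smul_zero]; exact h0
      · have hyn : 0 < ‖y‖ := norm_pos_iff.mpr hy0
        have e : c • y = polar (c * ‖y‖) (argE y) := by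
          conv_lhs => rw [← polar_argE y]
          apply ext2 <;> simp <;> ring
        rw [e, polarFn_polar htper (by positivity), polarFn_polar hsper (by positivity)]
        have hy' : polarFn γ t y - polarFn γ s y < 1 := hy
        rw [hdiff] at hy'
        rw [mul_rpow hc hyn.le]
        have h1 : c ^ γ ≤ 1 := rpow_le_one hc hc1 hγ0.le
        have h2 : 0 ≤ ‖y‖ ^ γ * (t (argE y) - s (argE y)) :=
          mul_nonneg (rpow_nonneg hyn.le _) (hd.le.trans (hdle y))
        calc _ = c ^ γ * (‖y‖ ^ γ * (t (argE y) - s (argE y))) := by ring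
          _ ≤ 1 * (‖y‖ ^ γ * (t (argE y) - s (argE y))) := by gcongr
          _ < 1 := by rw [one_mul]; exact hy'
  have hconn : IsConnected Ω := (hstar.isPathConnected h0).isConnected
  have hbdd : Bornology.IsBounded Ω := by
    rw [Metric.isBounded_iff_subset_ball (0 : E 2)]
    refine ⟨1 + 1 / d, fun x hx => ?_⟩
    rw [Metric.mem_ball, dist_zero_right]
    have hx' : polarFn γ t x - polarFn γ s x < 1 := hx
    rw [hdiff] at hx'
    by_contra hcon
    push Not at hcon
    have h1 : 1 ≤ ‖x‖ := by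
      have : 0 < 1 / d := by positivity
      linarith
    have h2 : ‖x‖ ≤ ‖x‖ ^ γ := by
      conv_lhs => rw [← rpow_one ‖x‖]
      exact rpow_le_rpow_of_exponent_le h1 (by linarith)
    have h3 : ‖x‖ ^ γ * d ≤ ‖x‖ ^ γ * (t (argE x) - s (argE x)) :=
      mul_le_mul_of_nonneg_left (hdle x) (by linarith)
    have h4 : 1 / d < ‖x‖ := by linarith
    have h5 : 1 < ‖x‖ * d := by
      rwa [div_lt_iff₀ hd] at h4
    nlinarith
  have hfr : ∀ x ∈ frontier Ω, polarFn γ s x + 1 = polarFn γ t x := by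
    intro x hx
    have h1 : polarFn γ t x - polarFn γ s x ≤ 1 := by
      have hcl : IsClosed {x : E 2 | polarFn γ t x - polarFn γ s x ≤ 1} :=
        isClosed_le (hV.sub hU) continuous_const
      have hsub : closure Ω ⊆ {x : E 2 | polarFn γ t x - polarFn γ s x ≤ 1} :=
        closure_minimal (fun y hy => le_of_lt (show polarFn γ t y - polarFn γ s y < 1 from hy)) hcl
      exact hsub (frontier_subset_closure hx)
    have h2 : ¬ (polarFn γ t x - polarFn γ s x < 1) := by
      intro h3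
      have h4 : x ∈ interior Ω := by rw [hopen.interior_eq]; exact h3
      exact hx.2 h4
    push Not at h2
    linarith
  refine ⟨Ω, polarFn (γ - 2) a, polarFn γ t, fun x => polarFn γ s x + 1,
    fun x => polarFn γ t x + 0, hopen, hconn, hbdd,
    continuous_polarFn (by linarith) ha haper, hV, ?_, ?_, 0, h0, ?_⟩
  · exact ⟨(hU.add continuous_const).continuousOn,
      isSubsolution_polarFn hp hγ hs hs1 hsne hsper hNs 1 Ω,
      isSupersolution_polarFn hp hγ hs hs1 hsne hsper hNs 1 Ω, hfr⟩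
  · exact ⟨(hV.add continuous_const).continuousOn,
      isSubsolution_polarFn hp hγ ht ht1 htne htper hNt 0 Ω,
      isSupersolution_polarFn hp hγ ht ht1 htne htper hNt 0 Ω, fun x _ => by simp⟩
  · simp only [polarFn_zero hγ0]
    norm_num

end Pool.Agent.Helper37.PL
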