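import Mathlib
import Pool.Agent.Helper37.PL.Calc

/-!
# The vector field of the profile equation
-/

namespace Pool.Agent.Helper37.PL

open Real Set Filter Topology NNReal

/-- slope of the profile as a function of `s` (cut off below at `σ`) and `Y` -/
noncomputable def F1 (κ γ σ s Y : ℝ) : ℝ := pf κ γ (max s σ) Y

/-- second component -/
noncomputable def F2 (κ γ σ s Y : ℝ) : ℝ :=
  -(κ * γ * H γ (max s σ) (F1 κ γ σ s Y)) - c0 κ γ * s

/-- Lipschitz constant of the first component -/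
noncomputable def K1 (κ γ : ℝ) : ℝ := (1 + 3 * |κ| * γ) / bmin κ

/-- Lipschitz constant of the second component -/
noncomputable def K2 (κ γ : ℝ) : ℝ := |κ| * γ * (3 * K1 κ γ + γ) + |c0 κ γ|

/-- the vector field -/
noncomputable def Fl (κ γ σ ε : ℝ) (y : ℝ → ℝ) (τ : ℝ) (z : ℝ × ℝ) : ℝ × ℝ :=
  (ε * F1 κ γ σ z.1 (y τ + z.2), ε * F2 κ γ σ z.1 (y τ + z.2))

section

variable {κ γ σ : ℝ}

lemma K1_nonneg (hκ : -1 < κ) (hγ : 0 < γ) : 0 ≤ K1 κ γ := by
  unfold K1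
  have := bmin_pos hκ
  positivity

lemma K2_nonneg (hκ : -1 < κ) (hγ : 0 < γ) : 0 ≤ K2 κ γ := by
  unfold K2
  have := K1_nonneg hκ hγ
  positivity

lemma abs_max_sub_max_le' (s s' σ : ℝ) : |max s' σ - max s σ| ≤ |s' - s| := by
  have := abs_max_sub_max_le_abs s' s σ
  exact this

lemma F1_lip (hκ : -1 < κ) (hγ : 0 < γ) (hσ : 0 < σ) {s s' Y Y' m : ℝ}
    (hs : |s' - s| ≤ m) (hY : |Y' - Y| ≤ m) :
    |F1 κ γ σ s' Y' - F1 κ γ σ s Y| ≤ K1 κ γ * m := by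
  unfold F1
  have hb := bmin_pos hκ
  have h1 := pf_lip hκ hγ (lt_max_of_lt_right hσ : 0 < max s σ)
    (lt_max_of_lt_right hσ : 0 < max s' σ) Y Y'
  have h2 := abs_max_sub_max_le' s s' σ
  have h3 : 3 * |κ| * γ * |max s' σ - max s σ| ≤ 3 * |κ| * γ * m := by
    apply mul_le_mul_of_nonneg_left (h2.trans hs) (by positivity)
  unfold K1
  rw [div_mul_eq_mul_div, le_div_iff₀ hb]
  nlinarith

lemma F2_lip (hκ : -1 < κ) (hγ : 0 < γ) (hσ : 0 < σ) {s s' Y Y' m : ℝ}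
    (hs : |s' - s| ≤ m) (hY : |Y' - Y| ≤ m) :
    |F2 κ γ σ s' Y' - F2 κ γ σ s Y| ≤ K2 κ γ * m := by
  have h1 := F1_lip hκ hγ hσ hs hY
  have hm : 0 ≤ m := (abs_nonneg _).trans hs
  unfold F2 K2
  set P := F1 κ γ σ s Y
  set P' := F1 κ γ σ s' Y'
  have h2 : |H γ (max s' σ) P' - H γ (max s σ) P| ≤ (3 * K1 κ γ + γ) * m := by
    have e1 := H_lip_P (γ := γ) (s := max s' σ) P P'
    have e2 := H_lip_s hγ (lt_max_of_lt_right hσ : 0 < max s σ)
      (lt_max_of_lt_right hσ : 0 < max s' σ) P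
    have e3 := abs_max_sub_max_le' s s' σ
    have e4 : |H γ (max s' σ) P' - H γ (max s σ) P| ≤
        |H γ (max s' σ) P' - H γ (max s' σ) P| + |H γ (max s' σ) P - H γ (max s σ) P| := by
      have := abs_add_le (H γ (max s' σ) P' - H γ (max s' σ) P)
        (H γ (max s' σ) P - H γ (max s σ) P)
      simpa using this
    have e5 : γ * |max s' σ - max s σ| ≤ γ * m := mul_le_mul_of_nonneg_left (e3.trans hs) hγ.le
    linarith
  have h3 : -(κ * γ * H γ (max s' σ) P') - c0 κ γ * s' - (-(κ * γ * H γ (max s σ) P) -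
      c0 κ γ * s) = -(κ * γ * (H γ (max s' σ) P' - H γ (max s σ) P)) - c0 κ γ * (s' - s) := by
    ring
  rw [h3]
  calc |-(κ * γ * (H γ (max s' σ) P' - H γ (max s σ) P)) - c0 κ γ * (s' - s)|
      ≤ |-(κ * γ * (H γ (max s' σ) P' - H γ (max s σ) P))| + |c0 κ γ * (s' - s)| := abs_sub _ _
    _ = |κ| * γ * |H γ (max s' σ) P' - H γ (max s σ) P| + |c0 κ γ| * |s' - s| := by
        rw [abs_neg, abs_mul, abs_mul, abs_mul, abs_of_pos hγ]
    _ ≤ |κ| * γ * ((3 * K1 κ γ + γ) * m) + |c0 κ γ| * m := by gcongr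
    _ = _ := by ring

lemma B_zero (hκ : -1 < κ) : B κ 0 = 0 := by
  have h : beta κ 0 = 0 := by simp [beta]
  calc B κ 0 = B κ (beta κ 0) := by rw [h]
    _ = 0 := B_beta hκ 0

lemma pf_abs_le (hκ : -1 < κ) (hγ : 0 < γ) {s : ℝ} (hs : 0 < s) (Y : ℝ) :
    bmin κ * |pf κ γ s Y| ≤ |Y| := by
  have h := pf_lip hκ hγ hs hs 0 Y
  have h0 : pf κ γ s 0 = 0 := by unfold pf; rw [zero_div, B_zero hκ, mul_zero]
  rw [h0] at h
  simpa using h

lemma H_abs_le (s P : ℝ) : |H γ s P| ≤ 2 * |P| := by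
  unfold H
  rw [abs_mul]
  have := abs_arctan_le (P / (γ * s))
  nlinarith [abs_nonneg P]

lemma Fl_lipschitz (hκ : -1 < κ) (hγ : 0 < γ) (hσ : 0 < σ) {ε : ℝ} (hε : 0 ≤ ε) (y : ℝ → ℝ)
    (τ : ℝ) : LipschitzWith (Real.toNNReal (ε * (K1 κ γ + K2 κ γ))) (Fl κ γ σ ε y τ) := by
  apply LipschitzWith.of_dist_le_mul
  intro z z'
  have hK1 := K1_nonneg hκ hγ
  have hK2 := K2_nonneg hκ hγ
  rw [Real.coe_toNNReal _ (by positivity)]
  set m := dist z z' with hm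
  have hm0 : 0 ≤ m := dist_nonneg
  have h1 : |z.1 - z'.1| ≤ m := by
    rw [hm, Prod.dist_eq, ← Real.dist_eq]
    exact le_max_left _ _
  have h2 : |(y τ + z.2) - (y τ + z'.2)| ≤ m := by
    rw [hm, Prod.dist_eq, add_sub_add_left_eq_sub, ← Real.dist_eq]
    exact le_max_right _ _
  have e1 := F1_lip hκ hγ hσ h1 h2
  have e2 := F2_lip hκ hγ hσ h1 h2
  rw [Prod.dist_eq]
  apply max_le
  · simp only [Fl, Real.dist_eq]
    rw [← mul_sub, abs_mul, abs_of_nonneg hε]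
    calc ε * _ ≤ ε * (K1 κ γ * m) := by gcongr
      _ ≤ ε * ((K1 κ γ + K2 κ γ) * m) := by gcongr; linarith
      _ = _ := by ring
  · simp only [Fl, Real.dist_eq]
    rw [← mul_sub, abs_mul, abs_of_nonneg hε]
    calc ε * _ ≤ ε * (K2 κ γ * m) := by gcongr
      _ ≤ ε * ((K1 κ γ + K2 κ γ) * m) := by gcongr; linarith
      _ = _ := by ring

lemma Fl_continuous (hκ : -1 < κ) (hγ : 0 < γ) (hσ : 0 < σ) {ε : ℝ} {y : ℝ → ℝ}
    (hy : Continuous y) (z : ℝ × ℝ) : Continuous fun τ => Fl κ γ σ ε y τ z := by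
  have hK1 := K1_nonneg hκ hγ
  have hK2 := K2_nonneg hκ hγ
  have h1 : Continuous fun Y => F1 κ γ σ z.1 Y := by
    have : LipschitzWith (Real.toNNReal (K1 κ γ)) fun Y => F1 κ γ σ z.1 Y := by
      apply LipschitzWith.of_dist_le_mul
      intro Y Y'
      rw [Real.coe_toNNReal _ hK1, Real.dist_eq, Real.dist_eq]
      exact F1_lip hκ hγ hσ (by simp) le_rfl
    exact this.continuous
  have h2 : Continuous fun Y => F2 κ γ σ z.1 Y := by
    have : LipschitzWith (Real.toNNReal (K2 κ γ)) fun Y => F2 κ γ σ z.1 Y := by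
      apply LipschitzWith.of_dist_le_mul
      intro Y Y'
      rw [Real.coe_toNNReal _ hK2, Real.dist_eq, Real.dist_eq]
      exact F2_lip hκ hγ hσ (by simp) le_rfl
    exact this.continuous
  have h3 : Continuous fun τ => y τ + z.2 := hy.add continuous_const
  exact (continuous_const.mul (h1.comp h3)).prodMk (continuous_const.mul (h2.comp h3))

/-- a bound for the field at the point `(s, 0)` -/
lemma Fl_bound (hκ : -1 < κ) (hγ : 0 < γ) (hσ : 0 < σ) {ε : ℝ} (hε : 0 ≤ ε) {y : ℝ → ℝ} {τ Cy s : ℝ}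
    (hy : |y τ| ≤ Cy) :
    ‖Fl κ γ σ ε y τ (s, 0)‖ ≤
      ε * ((1 + 2 * |κ| * γ) * (Cy / bmin κ) + |c0 κ γ| * |s|) := by
  have hb := bmin_pos hκ
  have h0 : 0 < max s σ := lt_max_of_lt_right hσ
  have h1 : |F1 κ γ σ s (y τ + 0)| ≤ Cy / bmin κ := by
    rw [le_div_iff₀ hb, add_zero, mul_comm]
    exact (pf_abs_le hκ hγ h0 (y τ)).trans hy
  have hC : 0 ≤ Cy := (abs_nonneg _).trans hy
  have hC' : 0 ≤ Cy / bmin κ := by positivity
  have h2 : |F2 κ γ σ s (y τ + 0)| ≤ 2 * |κ| * γ * (Cy / bmin κ) + |c0 κ γ| * |s| := by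
    unfold F2
    calc |-(κ * γ * H γ (max s σ) (F1 κ γ σ s (y τ + 0))) - c0 κ γ * s|
        ≤ |-(κ * γ * H γ (max s σ) (F1 κ γ σ s (y τ + 0)))| + |c0 κ γ * s| := abs_sub _ _
      _ = |κ| * γ * |H γ (max s σ) (F1 κ γ σ s (y τ + 0))| + |c0 κ γ| * |s| := by
          rw [abs_neg, abs_mul, abs_mul, abs_mul, abs_of_pos hγ]
      _ ≤ |κ| * γ * (2 * (Cy / bmin κ)) + |c0 κ γ| * |s| := by
          gcongr
          exact (H_abs_le _ _).trans (by gcongr)
      _ = _ := by ring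
  rw [Prod.norm_def]
  apply max_le
  · simp only [Fl, Real.norm_eq_abs]
    rw [abs_mul, abs_of_nonneg hε]
    gcongr
    have : 0 ≤ 2 * |κ| * γ * (Cy / bmin κ) := by positivity
    have : 0 ≤ |c0 κ γ| * |s| := by positivity
    linarith
  · simp only [Fl, Real.norm_eq_abs]
    rw [abs_mul, abs_of_nonneg hε]
    gcongr
    linarith

end

end Pool.Agent.Helper37.PL
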