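import Mathlib
import Pool.Agent.Helper37.PL.Calc

/-!
# The right-hand side generated by `ε cos (θ / ε)`, for `-1 < κ < 0`
-/

namespace Pool.Agent.Helper37.PL

open Real Set Filter Topology

/-- `sin² / (γ² ε² cos² + sin²)` -/
noncomputable def sg (γ ε τ : ℝ) : ℝ := sin τ ^ 2 / (γ ^ 2 * (ε * cos τ) ^ 2 + sin τ ^ 2)

/-- the bracket -/
noncomputable def Br (κ γ ε τ : ℝ) : ℝ :=
  1 + κ * sg γ ε τ - ε ^ 2 * (c0 κ γ + κ * γ ^ 2 * sg γ ε τ)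

/-- the right-hand side in the fast variable -/
noncomputable def Af (κ γ ε τ : ℝ) : ℝ := -cos τ * Br κ γ ε τ

/-- its primitive -/
noncomputable def yf (κ γ ε τ : ℝ) : ℝ := ∫ t in (0 : ℝ)..τ, Af κ γ ε t

section

variable {κ γ ε : ℝ}

lemma den_pos (hγ : 0 < γ) (hε : 0 < ε) (τ : ℝ) :
    0 < γ ^ 2 * (ε * cos τ) ^ 2 + sin τ ^ 2 := by
  by_cases h : sin τ = 0
  · have h1 : cos τ ^ 2 = 1 := by nlinarith [sin_sq_add_cos_sq τ]
    rw [h, mul_pow, h1]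
    positivity
  · have : 0 < sin τ ^ 2 := by positivity
    positivity

lemma sg_nonneg (hγ : 0 < γ) (hε : 0 < ε) (τ : ℝ) : 0 ≤ sg γ ε τ :=
  div_nonneg (sq_nonneg _) (den_pos hγ hε τ).le

lemma sg_le_one (hγ : 0 < γ) (hε : 0 < ε) (τ : ℝ) : sg γ ε τ ≤ 1 := by
  unfold sg
  rw [div_le_one (den_pos hγ hε τ)]
  have : 0 ≤ γ ^ 2 * (ε * cos τ) ^ 2 := by positivity
  linarith

lemma Nop_cos (hγ : 0 < γ) (hε : 0 < ε) (τ : ℝ) :
    ε * Nop κ γ (ε * cos τ) (-sin τ) (-(cos τ / ε)) = Af κ γ ε τ := by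
  have h := den_pos hγ hε τ
  have h2 : γ ^ 2 * (ε * cos τ) ^ 2 + (-sin τ) ^ 2 ≠ 0 := by
    rw [neg_sq]; exact h.ne'
  rw [Nop_eq h2, neg_sq]
  change ε * ((1 + κ * sg γ ε τ) * (-(cos τ / ε)) +
    (c0 κ γ + κ * γ ^ 2 * sg γ ε τ) * (ε * cos τ)) = Af κ γ ε τ
  unfold Af Br
  field_simp
  ring

lemma c0_pos (hκ : -1 < κ) (hκ0 : κ < 0) (hγ : 0 < γ) : 0 < c0 κ γ := by
  unfold c0
  have h1 : 0 < γ ^ 2 * (1 + κ) := by
    have : 0 < 1 + κ := by linarith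
    positivity
  nlinarith [mul_pos hγ (neg_pos.mpr hκ0)]

lemma Br_bounds (hκ : -1 < κ) (hκ0 : κ < 0) (hγ : 0 < γ) (hε : 0 < ε)
    (hsm : ε ^ 2 * (c0 κ γ + γ ^ 2) ≤ (1 + κ) / 2) (τ : ℝ) :
    (1 + κ) / 2 ≤ Br κ γ ε τ ∧ Br κ γ ε τ ≤ 2 := by
  have h1 := sg_nonneg hγ hε τ
  have h2 := sg_le_one hγ hε τ
  have h3 := c0_pos hκ hκ0 hγ
  have hg2 : 0 ≤ γ ^ 2 := sq_nonneg γ
  have h4 : κ * γ ^ 2 * sg γ ε τ ≤ 0 := by
    have : 0 ≤ (-κ) * (γ ^ 2 * sg γ ε τ) := mul_nonneg (by linarith) (by positivity)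
    linarith
  have h5 : -γ ^ 2 ≤ κ * γ ^ 2 * sg γ ε τ := by
    have h6 : γ ^ 2 * sg γ ε τ ≤ γ ^ 2 := mul_le_of_le_one_right hg2 h2
    have h7 : 0 ≤ γ ^ 2 * sg γ ε τ := by positivity
    nlinarith
  have h8 : ε ^ 2 * (c0 κ γ + κ * γ ^ 2 * sg γ ε τ) ≤ ε ^ 2 * (c0 κ γ + γ ^ 2) := by
    apply mul_le_mul_of_nonneg_left _ (sq_nonneg ε)
    linarith
  have h9 : -(ε ^ 2 * (c0 κ γ + γ ^ 2)) ≤ ε ^ 2 * (c0 κ γ + κ * γ ^ 2 * sg γ ε τ) := by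
    have : 0 ≤ ε ^ 2 := sq_nonneg ε
    nlinarith
  have h10 : κ ≤ κ * sg γ ε τ := by nlinarith
  have h11 : κ * sg γ ε τ ≤ 0 := by nlinarith
  unfold Br
  constructor
  · linarith
  · linarith

lemma Af_abs_le (hκ : -1 < κ) (hκ0 : κ < 0) (hγ : 0 < γ) (hε : 0 < ε)
    (hsm : ε ^ 2 * (c0 κ γ + γ ^ 2) ≤ (1 + κ) / 2) (τ : ℝ) : |Af κ γ ε τ| ≤ 2 := by
  obtain ⟨h1, h2⟩ := Br_bounds hκ hκ0 hγ hε hsm τ
  have h0 : 0 ≤ Br κ γ ε τ := by linarith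
  unfold Af
  rw [abs_mul, abs_neg, abs_of_nonneg h0]
  calc |cos τ| * Br κ γ ε τ ≤ 1 * 2 := by
        gcongr
        exact abs_cos_le_one τ
    _ = 2 := by ring

lemma Af_continuous (hγ : 0 < γ) (hε : 0 < ε) : Continuous (Af κ γ ε) := by
  have h : Continuous (sg γ ε) := by
    unfold sg
    exact Continuous.div (by fun_prop) (by fun_prop) fun τ => (den_pos hγ hε τ).ne'
  unfold Af Br
  fun_prop

lemma Af_neg (τ : ℝ) : Af κ γ ε (-τ) = Af κ γ ε τ := by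
  unfold Af Br sg
  simp only [cos_neg, sin_neg, neg_sq]

lemma Af_pi_sub (τ : ℝ) : Af κ γ ε (π - τ) = -Af κ γ ε τ := by
  unfold Af Br sg
  simp only [cos_pi_sub, sin_pi_sub, mul_neg, neg_sq]
  ring

lemma Af_add_two_pi (τ : ℝ) : Af κ γ ε (τ + 2 * π) = Af κ γ ε τ := by
  unfold Af Br sg
  simp only [cos_add_two_pi, sin_add_two_pi]

lemma hasDerivAt_yf (hγ : 0 < γ) (hε : 0 < ε) (τ : ℝ) :
    HasDerivAt (yf κ γ ε) (Af κ γ ε τ) τ :=
  ((Af_continuous hγ hε).integral_hasStrictDerivAt 0 τ).hasDerivAt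

lemma yf_zero : yf κ γ ε 0 = 0 := by
  unfold yf; simp

lemma yf_neg (hγ : 0 < γ) (hε : 0 < ε) (τ : ℝ) : yf κ γ ε (-τ) = -yf κ γ ε τ := by
  have hd : ∀ t, HasDerivAt (fun t => yf κ γ ε (-t) + yf κ γ ε t) 0 t := by
    intro t
    have h1 : HasDerivAt (fun t => yf κ γ ε (-t)) (Af κ γ ε (-t) * (-1)) t :=
      (hasDerivAt_yf hγ hε (-t)).comp t (hasDerivAt_neg t)
    refine (h1.fun_add (hasDerivAt_yf hγ hε t)).congr_deriv ?_
    rw [Af_neg]; ring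
  have h := is_const_of_deriv_eq_zero (fun t => (hd t).differentiableAt) (fun t => (hd t).deriv) τ 0
  simp only [neg_zero, yf_zero, add_zero] at h
  linarith

lemma yf_pi_sub_aux (hγ : 0 < γ) (hε : 0 < ε) (τ : ℝ) :
    yf κ γ ε (π - τ) - yf κ γ ε τ = yf κ γ ε π := by
  have hd : ∀ t, HasDerivAt (fun t => yf κ γ ε (π - t) - yf κ γ ε t) 0 t := by
    intro t
    have h0 : HasDerivAt (fun t : ℝ => π - t) (-1) t := by
      simpa using (hasDerivAt_id' t).const_sub π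
    have h1 : HasDerivAt (fun t => yf κ γ ε (π - t)) (Af κ γ ε (π - t) * (-1)) t :=
      (hasDerivAt_yf hγ hε (π - t)).comp t h0
    refine (h1.fun_sub (hasDerivAt_yf hγ hε t)).congr_deriv ?_
    rw [Af_pi_sub]; ring
  have h := is_const_of_deriv_eq_zero (fun t => (hd t).differentiableAt) (fun t => (hd t).deriv) τ 0
  simp only [sub_zero, yf_zero] at h
  exact h

lemma yf_pi (hγ : 0 < γ) (hε : 0 < ε) : yf κ γ ε π = 0 := by
  have := yf_pi_sub_aux (κ := κ) hγ hε π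
  rw [sub_self, yf_zero] at this
  linarith

lemma yf_pi_sub (hγ : 0 < γ) (hε : 0 < ε) (τ : ℝ) : yf κ γ ε (π - τ) = yf κ γ ε τ := by
  have := yf_pi_sub_aux (κ := κ) hγ hε τ
  rw [yf_pi hγ hε] at this
  linarith

lemma yf_add_two_pi (hγ : 0 < γ) (hε : 0 < ε) (τ : ℝ) :
    yf κ γ ε (τ + 2 * π) = yf κ γ ε τ := by
  have hd : ∀ t, HasDerivAt (fun t => yf κ γ ε (t + 2 * π) - yf κ γ ε t) 0 t := by
    intro t
    have h1 : HasDerivAt (fun t => yf κ γ ε (t + 2 * π)) (Af κ γ ε (t + 2 * π)) t :=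
      HasDerivAt.comp_add_const t (2 * π) (hasDerivAt_yf hγ hε (t + 2 * π))
    refine (h1.fun_sub (hasDerivAt_yf hγ hε t)).congr_deriv ?_
    rw [Af_add_two_pi]; ring
  have h := is_const_of_deriv_eq_zero (fun t => (hd t).differentiableAt) (fun t => (hd t).deriv) τ
    (-π)
  have e1 : -π + 2 * π = π := by ring
  simp only [e1] at h
  rw [yf_pi hγ hε, yf_neg hγ hε, yf_pi hγ hε] at h
  linarith

lemma yf_abs_le (hκ : -1 < κ) (hκ0 : κ < 0) (hγ : 0 < γ) (hε : 0 < ε)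
    (hsm : ε ^ 2 * (c0 κ γ + γ ^ 2) ≤ (1 + κ) / 2) {τ : ℝ} (hτ : τ ∈ Icc (-π) π) :
    |yf κ γ ε τ| ≤ 8 := by
  have h := Convex.norm_image_sub_le_of_norm_hasDerivWithin_le (f := yf κ γ ε)
    (f' := Af κ γ ε) (C := 2) (s := univ) (x := 0) (y := τ)
    (fun x _ => (hasDerivAt_yf hγ hε x).hasDerivWithinAt)
    (fun x _ => Af_abs_le hκ hκ0 hγ hε hsm x) convex_univ (mem_univ _) (mem_univ _)
  rw [yf_zero, sub_zero, sub_zero, Real.norm_eq_abs, Real.norm_eq_abs] at h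
  have h2 : |τ| ≤ π := abs_le.mpr hτ
  have := Real.pi_lt_four
  linarith

lemma yf_lower (hκ : -1 < κ) (hκ0 : κ < 0) (hγ : 0 < γ) (hε : 0 < ε)
    (hsm : ε ^ 2 * (c0 κ γ + γ ^ 2) ≤ (1 + κ) / 2) {τ : ℝ} (hτ : τ ∈ Icc 0 π) :
    (1 + κ) / 2 * sin τ ≤ -yf κ γ ε τ := by
  have hhalf : ∀ t ∈ Icc (0 : ℝ) (π / 2), (1 + κ) / 2 * sin t ≤ -yf κ γ ε t := by
    have hmono : MonotoneOn (fun t => -yf κ γ ε t - (1 + κ) / 2 * sin t) (Icc 0 (π / 2)) := by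
      have hd : ∀ t, HasDerivAt (fun t => -yf κ γ ε t - (1 + κ) / 2 * sin t)
          (-Af κ γ ε t - (1 + κ) / 2 * cos t) t := fun t =>
        (hasDerivAt_yf hγ hε t).neg.fun_sub ((hasDerivAt_sin t).const_mul _)
      apply monotoneOn_of_deriv_nonneg (convex_Icc _ _)
      · exact fun t _ => (hd t).continuousAt.continuousWithinAt
      · exact fun t _ => (hd t).differentiableAt.differentiableWithinAt
      · intro t ht
        rw [interior_Icc] at ht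
        rw [(hd t).deriv]
        have hc : 0 ≤ cos t := cos_nonneg_of_mem_Icc ⟨by linarith [ht.1, pi_pos], ht.2.le⟩
        have hb := (Br_bounds hκ hκ0 hγ hε hsm t).1
        unfold Af
        nlinarith
    intro t ht
    have h1 := hmono ⟨le_rfl, by positivity⟩ ht ht.1
    simp only [yf_zero, sin_zero] at h1
    linarith
  rcases le_total τ (π / 2) with h | h
  · exact hhalf τ ⟨hτ.1, h⟩
  · have h1 := hhalf (π - τ) ⟨by linarith [hτ.2], by linarith⟩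
    rwa [sin_pi_sub, yf_pi_sub hγ hε] at h1

end

end Pool.Agent.Helper37.PL
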