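import Mathlib

/-!
# Some facts on ordinary differential equations with Lipschitz right-hand side
-/

namespace Pool.Agent.Helper37.PL

open Set Filter Topology Metric NNReal

section Flow

variable {X : Type*} [NormedAddCommGroup X] [NormedSpace ℝ X]

/-- existence of the flow of a small Lipschitz vector field on `[-T₀, T]` -/
lemma exists_flow [CompleteSpace X] (F : ℝ → X → X) {T₀ T : ℝ} (hT₀ : 0 ≤ T₀) (hT : 0 ≤ T) (hTT : T₀ ≤ T)
    (K M R : ℝ≥0)
    (hLip : ∀ t, LipschitzWith K (F t)) (hcont : ∀ x, Continuous fun t => F t x)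
    (hM : ∀ t ∈ Icc (-T₀) T, ‖F t 0‖ ≤ M) (hsmall : (M + K * (2 * R) : ℝ) * T ≤ R) :
    ∃ α : X → ℝ → X, (∀ x ∈ closedBall (0 : X) R, α x 0 = x ∧
      ∀ t ∈ Icc (-T₀) T, HasDerivWithinAt (α x) (F t (α x t)) (Icc (-T₀) T) t) ∧
      ∃ L' : ℝ≥0, ∀ t ∈ Icc (-T₀) T, LipschitzOnWith L' (α · t) (closedBall (0 : X) R) := by
  have h0 : (0 : ℝ) ∈ Icc (-T₀) T := ⟨by linarith, hT⟩
  have hPL : IsPicardLindelof F (⟨0, h0⟩ : Icc (-T₀) T) (0 : X) (2 * R) R (M + K * (2 * R)) K := by
    refine ⟨fun t _ => (hLip t).lipschitzOnWith, fun x _ => (hcont x).continuousOn, ?_, ?_⟩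
    · intro t ht x hx
      have h1 : ‖F t x - F t 0‖ ≤ K * ‖x - 0‖ := (hLip t).norm_sub_le x 0
      have h2 : ‖x‖ ≤ 2 * R := by simpa using hx
      have h3 : ‖F t x‖ ≤ ‖F t x - F t 0‖ + ‖F t 0‖ := by
        simpa using norm_add_le (F t x - F t 0) (F t 0)
      rw [sub_zero] at h1
      have h4 : (K : ℝ) * ‖x‖ ≤ K * (2 * R) := mul_le_mul_of_nonneg_left h2 K.coe_nonneg
      have h5 := hM t ht
      push_cast
      linarith
    · have h1 : max (T - 0) (0 - -T₀) ≤ T := by
        simp only [sub_zero, zero_sub, neg_neg]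
        exact max_le le_rfl hTT
      have h2 : (0 : ℝ) ≤ M + K * (2 * R) := by positivity
      push_cast
      calc (M + K * (2 * R) : ℝ) * max (T - 0) (0 - -T₀) ≤ (M + K * (2 * R) : ℝ) * T :=
            mul_le_mul_of_nonneg_left h1 h2
        _ ≤ R := hsmall
        _ = 2 * R - R := by ring
  exact hPL.exists_forall_mem_closedBall_eq_hasDerivWithinAt_lipschitzOnWith

/-- a solution moves little in a short time -/
lemma dist_le_of_small {F : ℝ → X → X} {T : ℝ} {K M : ℝ≥0} {x : X}
    (hLip : ∀ t, LipschitzWith K (F t)) (hM : ∀ t ∈ Icc 0 T, ‖F t x‖ ≤ M)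
    (hKT : (K : ℝ) * T ≤ 1) {z : ℝ → X} (hz0 : z 0 = x)
    (hz : ∀ t ∈ Icc 0 T, HasDerivWithinAt z (F t (z t)) (Icc 0 T) t) :
    ∀ t ∈ Icc 0 T, ‖z t - x‖ ≤ 3 * M * T := by
  intro t ht
  have hcont : ContinuousOn (fun t => z t - x) (Icc 0 T) :=
    (fun t ht => (hz t ht).continuousWithinAt.sub continuousWithinAt_const)
  have h := norm_le_gronwallBound_of_norm_deriv_right_le (f := fun t => z t - x)
    (f' := fun t => F t (z t)) (δ := 0) (K := K) (ε := M) (a := 0) (b := T) hcont
    (fun t ht => by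
      have h1 := (hz t (Ico_subset_Icc_self ht)).sub_const x
      exact h1.mono_of_mem_nhdsWithin (Icc_mem_nhdsGE_of_mem ht))
    (by simp [hz0])
    (fun t ht => by
      have h1 : ‖F t (z t) - F t x‖ ≤ K * ‖z t - x‖ := (hLip t).norm_sub_le _ _
      have h2 : ‖F t (z t)‖ ≤ ‖F t (z t) - F t x‖ + ‖F t x‖ := by
        simpa using norm_add_le (F t (z t) - F t x) (F t x)
      have h3 := hM t (Ico_subset_Icc_self ht)
      linarith) t ht
  refine h.trans ?_
  rw [sub_zero]
  have ht0 : 0 ≤ t := ht.1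
  have htT : t ≤ T := ht.2
  have hT : 0 ≤ T := ht0.trans htT
  by_cases hK : (K : ℝ) = 0
  · rw [hK, gronwallBound_K0]
    have : (M : ℝ) * t ≤ M * T := mul_le_mul_of_nonneg_left htT M.coe_nonneg
    have h0 : 0 ≤ (M : ℝ) * T := by positivity
    simp only [zero_add]
    nlinarith
  · rw [gronwallBound_of_K_ne_0 hK]
    simp only [zero_mul, zero_add]
    have hKpos : 0 < (K : ℝ) := lt_of_le_of_ne K.coe_nonneg (Ne.symm hK)
    have hx : (K : ℝ) * t ≤ 1 := (mul_le_mul_of_nonneg_left htT hKpos.le).trans hKT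
    have hx0 : 0 ≤ (K : ℝ) * t := by positivity
    have he : Real.exp (K * t) - 1 ≤ 3 * (K * t) := by
      have h1 := Real.abs_exp_sub_one_le (x := (K : ℝ) * t) (by rw [abs_of_nonneg hx0]; exact hx)
      rw [abs_of_nonneg hx0] at h1
      have h2 := le_abs_self (Real.exp (K * t) - 1)
      linarith
    calc (M : ℝ) / K * (Real.exp (K * t) - 1) ≤ (M : ℝ) / K * (3 * (K * t)) := by gcongr
      _ = 3 * M * t := by field_simp
      _ ≤ 3 * M * T := by gcongr

end Flow

section Periodic

variable {X : Type*} [NormedAddCommGroup X] [NormedSpace ℝ X]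

/-- periodic extension of a closed trajectory -/
lemma periodic_extension {L a : ℝ} (hL : 0 < L) {G : ℝ → X → X}
    (hG : ∀ t x, G (t + L) x = G t x) {z : ℝ → X} (hz : z a = z (a + L))
    (hd : ∀ t ∈ Icc a (a + L), HasDerivWithinAt z (G t (z t)) (Icc a (a + L)) t) :
    ∃ y : ℝ → X, Function.Periodic y L ∧ (∀ t ∈ Icc a (a + L), y t = z t) ∧
      ∀ t, HasDerivAt y (G t (y t)) t := by
  set y : ℝ → X := fun t => z (toIcoMod hL a t) with hy
  have hper : Function.Periodic y L := by
    intro t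
    simp only [hy]
    rw [toIcoMod_add_right]
  have heq : ∀ t ∈ Icc a (a + L), y t = z t := by
    intro t ht
    rcases eq_or_lt_of_le ht.2 with h | h
    · rw [h, hper a]
      simp only [hy]
      rw [toIcoMod_apply_left, hz]
    · simp only [hy]
      rw [(toIcoMod_eq_self hL).mpr ⟨ht.1, h⟩]
  have hGz : ∀ (n : ℤ) t x, G (t + n * L) x = G t x := by
    intro n t x
    have h1 : Function.Periodic (fun t => G t x) L := fun t => hG t x
    exact h1.int_mul n t
  -- derivative on the fundamental interval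
  have hmain : ∀ t ∈ Ico a (a + L), HasDerivAt y (G t (y t)) t := by
    intro t ht
    rcases eq_or_lt_of_le ht.1 with h | h
    · -- the left end point
      subst h
      have hR : HasDerivWithinAt y (G a (y a)) (Icc a (a + L)) a := by
        have h1 := hd a ⟨le_rfl, by linarith⟩
        rw [heq a ⟨le_rfl, by linarith⟩]
        exact h1.congr (fun t ht => heq t ht) (heq a ⟨le_rfl, by linarith⟩)
      have hRi : HasDerivWithinAt y (G a (y a)) (Ici a) a :=
        hR.mono_of_mem_nhdsWithin (Icc_mem_nhdsGE (by linarith))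
      have hLft : HasDerivWithinAt y (G a (y a)) (Iic a) a := by
        have h1 := hd (a + L) ⟨by linarith, le_rfl⟩
        have h2 : HasDerivWithinAt y (G (a + L) (y (a + L))) (Icc a (a + L)) (a + L) := by
          rw [heq (a + L) ⟨by linarith, le_rfl⟩]
          exact h1.congr (fun t ht => heq t ht) (heq (a + L) ⟨by linarith, le_rfl⟩)
        rw [hG, hper a] at h2
        have h3 : HasDerivWithinAt y (G a (y a)) (Iic (a + L)) (a + L) :=
          h2.mono_of_mem_nhdsWithin (Icc_mem_nhdsLE (by linarith))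
        have h4 : HasDerivWithinAt (fun t => y (t + L)) (G a (y a)) (Iic a) a := by
          have h5 : HasDerivWithinAt (fun t : ℝ => t + L) 1 (Iic a) a :=
            ((hasDerivAt_id' a).add_const L).hasDerivWithinAt
          have h6 := HasDerivWithinAt.scomp (g₁ := y) (h := fun t : ℝ => t + L) a h3 h5
            (fun t (ht : t ≤ a) => by simpa using ht)
          rw [one_smul] at h6
          exact h6
        exact h4.congr (fun t _ => (hper t).symm) (hper a).symm
      have := hLft.union hRi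
      rwa [Iic_union_Ici, hasDerivWithinAt_univ] at this
    · have h1 : HasDerivAt z (G t (z t)) t :=
        (hd t (Ico_subset_Icc_self ht)).hasDerivAt (Icc_mem_nhds h ht.2)
      rw [heq t (Ico_subset_Icc_self ht)]
      refine h1.congr_of_eventuallyEq ?_
      filter_upwards [Icc_mem_nhds h ht.2] with u hu
      exact heq u hu
  refine ⟨y, hper, heq, fun t => ?_⟩
  set n : ℤ := toIcoDiv hL a t with hn
  set u := toIcoMod hL a t with hu
  have hut : t = u + n * L := by
    have := toIcoMod_add_toIcoDiv_zsmul hL a t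
    rw [zsmul_eq_mul] at this
    exact this.symm
  have hum : u ∈ Ico a (a + L) := toIcoMod_mem_Ico hL a t
  have h1 := hmain u hum
  have hyn : ∀ v, y (v + n * L) = y v := fun v => hper.int_mul n v
  have hyn' : ∀ v, y (v - n * L) = y v := fun v => hper.sub_int_mul_eq n
  rw [hut, hGz, hyn]
  have h2 : HasDerivAt (fun v => y (v - n * L)) (G u (y u)) (u + n * L) := by
    have h3 : HasDerivAt (fun v : ℝ => v - n * L) 1 (u + n * L) :=
      (hasDerivAt_id' _).sub_const _
    have h4 : HasDerivAt y (G u (y u)) (u + n * L - n * L) := by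
      rw [add_sub_cancel_right]; exact h1
    have h5 := HasDerivAt.scomp (g₁ := y) (h := fun v : ℝ => v - n * L) (u + n * L) h4 h3
    rw [one_smul] at h5
    exact h5
  rwa [funext hyn'] at h2

end Periodic

end Pool.Agent.Helper37.PL
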