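import Mathlib
import Pool.Agent.Helper37.PL.LowA
import Pool.Agent.Helper37.PL.Field
import Pool.Agent.Helper37.PL.Ode

/-!
# Shooting for `-1 < κ < 0`
-/

namespace Pool.Agent.Helper37.PL

open Real Set Filter Topology NNReal Metric

section

variable {κ γ σ : ℝ}

lemma arctan_le_self' {x : ℝ} (hx : 0 ≤ x) : arctan x ≤ x := by
  have hmono : MonotoneOn (fun t => t - arctan t) (Ici (0 : ℝ)) := by
    have hd : ∀ t, HasDerivAt (fun t => t - arctan t) (1 - 1 / (1 + t ^ 2)) t := fun t =>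
      (hasDerivAt_id' t).fun_sub (hasDerivAt_arctan t)
    apply monotoneOn_of_deriv_nonneg (convex_Ici _)
    · exact fun t _ => (hd t).continuousAt.continuousWithinAt
    · exact fun t _ => (hd t).differentiableAt.differentiableWithinAt
    · intro t _
      rw [(hd t).deriv]
      have h0 : (0 : ℝ) < 1 + t ^ 2 := by positivity
      have : 1 / (1 + t ^ 2) ≤ 1 := by
        rw [div_le_one h0]; nlinarith [sq_nonneg t]
      linarith
  have := hmono (mem_Ici.mpr le_rfl) (mem_Ici.mpr hx) hx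
  simp only [arctan_zero, sub_zero] at this
  linarith

lemma H_eq_abs (s P : ℝ) : H γ s P = |P| * arctan (|P| / (γ * s)) := by
  unfold H
  rcases le_total 0 P with h | h
  · rw [abs_of_nonneg h]
  · rw [abs_of_nonpos h, neg_div, arctan_neg]
    ring

lemma H_nonneg (hγ : 0 < γ) {s : ℝ} (hs : 0 < s) (P : ℝ) : 0 ≤ H γ s P := by
  rw [H_eq_abs]
  have : 0 ≤ |P| / (γ * s) := by positivity
  exact mul_nonneg (abs_nonneg _) (arctan_nonneg.mpr this)

lemma H_le (hγ : 0 < γ) {s : ℝ} (hs : 0 < s) (P : ℝ) : γ * H γ s P ≤ P ^ 2 / s := by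
  rw [H_eq_abs]
  have h1 : 0 ≤ |P| / (γ * s) := by positivity
  have h2 := arctan_le_self' h1
  calc γ * (|P| * arctan (|P| / (γ * s))) ≤ γ * (|P| * (|P| / (γ * s))) := by gcongr
    _ = |P| ^ 2 / s := by field_simp
    _ = P ^ 2 / s := by rw [sq_abs]

lemma Gam_abs_le (hκ : -1 < κ) (hκ0 : κ < 0) (hγ : 0 < γ) {s : ℝ} (hs : 0 < s) (P : ℝ) :
    |Gam κ γ s P| ≤ |P| := by
  have h1 : |γ * q γ s P| ≤ |P| := by
    unfold q
    have h2 : |arctan (P / (γ * s))| ≤ |P| / (γ * s) := by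
      have h3 : 0 ≤ |P| / (γ * s) := by positivity
      rcases le_total 0 P with h | h
      · rw [abs_of_nonneg h]
        have h4 : 0 ≤ P / (γ * s) := by positivity
        rw [abs_of_nonneg (arctan_nonneg.mpr h4)]
        exact arctan_le_self' h4
      · rw [abs_of_nonpos h]
        have h4 : 0 ≤ -P / (γ * s) := by
          have : 0 ≤ -P := by linarith
          positivity
        have h5 : P / (γ * s) = -(-P / (γ * s)) := by ring
        rw [h5, arctan_neg, abs_neg, abs_of_nonneg (arctan_nonneg.mpr h4)]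
        exact arctan_le_self' h4
    rw [abs_mul, abs_mul, abs_of_pos hγ, abs_of_pos hs]
    calc γ * (s * |arctan (P / (γ * s))|) ≤ γ * (s * (|P| / (γ * s))) := by gcongr
      _ = |P| := by field_simp
  unfold Gam
  calc |(1 + κ) * P - κ * γ * q γ s P| ≤ |(1 + κ) * P| + |κ * γ * q γ s P| := abs_sub _ _
    _ = (1 + κ) * |P| + (-κ) * |γ * q γ s P| := by
        rw [abs_mul, mul_assoc κ, abs_mul κ, abs_of_pos (by linarith : 0 < 1 + κ),
          abs_of_neg hκ0]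
    _ ≤ (1 + κ) * |P| + (-κ) * |P| := by
        gcongr
        linarith
    _ = |P| := by ring

lemma bmin_low (hκ0 : κ < 0) : bmin κ = 1 + κ := min_eq_right (by linarith)

lemma F2_neg (hκ : -1 < κ) (hκ0 : κ < 0) (hγ : 0 < γ) (hσ : 0 < σ) {s Y : ℝ} (hs : σ ≤ s)
    (hY : |Y| ≤ 9) (hbig : 81 < (1 + κ) ^ 2 * (c0 κ γ * s ^ 2)) : F2 κ γ σ s Y < 0 := by
  have hs0 : 0 < s := lt_of_lt_of_le hσ hs
  have hb : 0 < 1 + κ := by linarith
  unfold F2 F1
  rw [max_eq_left hs]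
  set P := pf κ γ s Y with hP
  have h1 : (1 + κ) * |P| ≤ 9 := by
    have := pf_abs_le hκ hγ hs0 Y
    rw [bmin_low hκ0] at this
    linarith
  have h2 : (1 + κ) ^ 2 * P ^ 2 ≤ 81 := by
    rw [← sq_abs P, ← mul_pow]
    have h0 : 0 ≤ (1 + κ) * |P| := by positivity
    nlinarith
  have h3 : P ^ 2 < c0 κ γ * s ^ 2 := by
    have : (1 + κ) ^ 2 * P ^ 2 < (1 + κ) ^ 2 * (c0 κ γ * s ^ 2) := by linarith
    exact lt_of_mul_lt_mul_left this (by positivity)
  have h4 := H_le hγ hs0 P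
  have h5 : P ^ 2 / s < c0 κ γ * s := by
    rw [div_lt_iff₀ hs0]; nlinarith
  have h6 := mul_nonneg hγ.le (H_nonneg hγ hs0 P)
  have h7 : -(κ * γ * H γ s P) ≤ γ * H γ s P := by nlinarith
  linarith

lemma F2_ge (hκ0 : κ < 0) (hγ : 0 < γ) (hσ : 0 < σ) {s Y : ℝ} (hs : σ ≤ s) :
    -(c0 κ γ * s) ≤ F2 κ γ σ s Y := by
  have hs0 : 0 < s := lt_of_lt_of_le hσ hs
  unfold F2
  rw [max_eq_left hs]
  have h6 := mul_nonneg hγ.le (H_nonneg hγ hs0 (F1 κ γ σ s Y))
  nlinarith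

lemma F2_mid (hκ : -1 < κ) (hκ0 : κ < 0) (hγ : 0 < γ) (hσ : 0 < σ) {s Y : ℝ} (hs : σ ≤ s)
    (hY : (1 + κ) / 8 ≤ |Y|) (hsm : γ * s ≤ (1 + κ) / 8) :
    -κ * γ * ((1 + κ) / 16) - c0 κ γ * s ≤ F2 κ γ σ s Y := by
  have hs0 : 0 < s := lt_of_lt_of_le hσ hs
  have hb : 0 < 1 + κ := by linarith
  unfold F2 F1
  rw [max_eq_left hs]
  set P := pf κ γ s Y with hP
  have h1 : |Y| ≤ |P| := by
    have := Gam_abs_le hκ hκ0 hγ hs0 P
    rwa [hP, Gam_pf hκ hγ hs0] at this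
  have h2 : (1 + κ) / 8 ≤ |P| := hY.trans h1
  have h3 : 1 ≤ |P| / (γ * s) := by
    rw [one_le_div (by positivity)]
    linarith
  have h4 : 3 / 4 ≤ arctan (|P| / (γ * s)) := by
    have := arctan_strictMono.monotone h3
    rw [arctan_one] at this
    have := Real.pi_gt_three
    linarith
  have h5 : (1 + κ) / 16 ≤ H γ s P := by
    rw [H_eq_abs]
    calc (1 + κ) / 16 ≤ (1 + κ) / 8 * (3 / 4) := by linarith
      _ ≤ _ := by gcongr
  have h6 : 0 < -κ * γ := by nlinarith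
  nlinarith

end

end Pool.Agent.Helper37.PL
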