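import Mathlib
import Pool.Agent.Helper37.PL.LowB

/-!
# The periodic profile for `-1 < κ < 0`
-/

namespace Pool.Agent.Helper37.PL

open Real Set Filter Topology Metric
open scoped NNReal

section Symmetry

variable {κ γ σ : ℝ}

lemma B_neg (hκ : -1 < κ) (y : ℝ) : B κ (-y) = -B κ y := by
  have h : beta κ (-B κ y) = -y := by
    have h1 : beta κ (-B κ y) = -beta κ (B κ y) := by
      unfold beta; rw [arctan_neg]; ring
    rw [h1, beta_B hκ]
  rw [← h, B_beta hκ]

lemma pf_neg (hκ : -1 < κ) (s Y : ℝ) : pf κ γ s (-Y) = -pf κ γ s Y := by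
  unfold pf
  rw [neg_div, B_neg hκ]
  ring

lemma H_neg (s P : ℝ) : H γ s (-P) = H γ s P := by
  unfold H
  rw [neg_div, arctan_neg]
  ring

lemma F1_neg (hκ : -1 < κ) (s Y : ℝ) : F1 κ γ σ s (-Y) = -F1 κ γ σ s Y := pf_neg hκ _ _

lemma F2_neg' (hκ : -1 < κ) (s Y : ℝ) : F2 κ γ σ s (-Y) = F2 κ γ σ s Y := by
  unfold F2
  rw [F1_neg hκ, H_neg]

end Symmetry

/-- the mean value theorem with one-sided derivatives at the end points -/
lemma mvt_within {f f' : ℝ → ℝ} {a b c d : ℝ} (hab : a < b) (hsub : Icc a b ⊆ Icc c d)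
    (hd : ∀ t ∈ Icc c d, HasDerivWithinAt f (f' t) (Icc c d) t) :
    ∃ t ∈ Ioo a b, f b - f a = f' t * (b - a) := by
  obtain ⟨t, ht, h⟩ := exists_hasDerivAt_eq_slope f f' hab
    (fun t ht => (hd t (hsub ht)).continuousWithinAt.mono hsub)
    (fun t ht => by
      have ha := hsub (left_mem_Icc.mpr hab.le)
      have hb := hsub (right_mem_Icc.mpr hab.le)
      exact (hd t (hsub (Ioo_subset_Icc_self ht))).hasDerivAt
        (Icc_mem_nhds (lt_of_le_of_lt ha.1 ht.1) (lt_of_lt_of_le ht.2 hb.2)))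
  refine ⟨t, ht, ?_⟩
  rw [h]
  have : b - a ≠ 0 := by linarith
  field_simp

theorem low_solution {κ γ : ℝ} (hκ : -1 < κ) (hκ0 : κ < 0) (hγ : 0 < γ) :
    ∃ (n : ℕ) (σ : ℝ) (z : ℝ → ℝ × ℝ), 0 < n ∧ 0 < σ ∧ Function.Periodic z (2 * π) ∧
      (∀ τ, HasDerivAt z (Fl κ γ σ (1 / n) (yf κ γ (1 / n)) τ (z τ)) τ) ∧
      ∀ τ, σ < (z τ).1 ∧ 1 / n < (z τ).1 := by
  -- constants
  set b := 1 + κ with hb
  have hb0 : 0 < b := by linarith
  have hbm : bmin κ = b := bmin_low hκ0
  set c := c0 κ γ with hc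
  have hc0 : 0 < c := c0_pos hκ hκ0 hγ
  set h0 := -κ * γ * (b / 16) with hh0
  have hh0pos : 0 < h0 := by
    have : 0 < -κ := by linarith
    positivity
  set sm := min (b / (12 * γ)) (h0 / (4 * c)) with hsm
  have hsm0 : 0 < sm := lt_min (by positivity) (by positivity)
  have hsm1 : 12 * γ * sm ≤ b := by
    have : sm ≤ b / (12 * γ) := min_le_left _ _
    rw [le_div_iff₀ (by positivity)] at this
    linarith
  have hsm2 : 4 * c * sm ≤ h0 := by
    have : sm ≤ h0 / (4 * c) := min_le_right _ _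
    rw [le_div_iff₀ (by positivity)] at this
    linarith
  set sp := 1 + sm + 324 / (b ^ 2 * c) with hsp
  have hfr : 0 < 324 / (b ^ 2 * c) := by positivity
  have hsp0 : 0 < sp := by linarith
  have hsmsp : sm ≤ sp := by linarith
  set δ := min (1 / 2) (min (sm / 2) (b / 8)) with hδ
  have hδ0 : 0 < δ := lt_min (by norm_num) (lt_min (by positivity) (by positivity))
  have hδ1 : δ ≤ 1 / 2 := min_le_left _ _
  have hδ2 : δ ≤ sm / 2 := (min_le_right _ _).trans (min_le_left _ _)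
  have hδ3 : δ ≤ b / 8 := (min_le_right _ _).trans (min_le_right _ _)
  set Kc := K1 κ γ + K2 κ γ with hKc
  have hKc0 : 0 ≤ Kc := add_nonneg (K1_nonneg hκ hγ) (K2_nonneg hκ hγ)
  set M0 := (1 + 2 * |κ| * γ) * (8 / b) with hM0
  have hM00 : 0 ≤ M0 := by positivity
  set M1 := M0 + c * sp with hM1
  have hM10 : 0 ≤ M1 := by positivity
  -- choice of n
  obtain ⟨n, hn1, hna, hnb, hnc, hnd, hne⟩ : ∃ n : ℕ, 1 ≤ n ∧ (c + γ ^ 2) / (b / 2) ≤ n ∧
      (M0 + Kc * (2 * sp)) * π / sp ≤ n ∧ Kc * π ≤ n ∧ 3 * M1 * π / δ ≤ n ∧ 4 / sm ≤ n := by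
    have ht := tendsto_natCast_atTop_atTop (R := ℝ)
    have := ((((((eventually_ge_atTop 1).and (ht.eventually_ge_atTop ((c + γ ^ 2) / (b / 2)))).and
      (ht.eventually_ge_atTop ((M0 + Kc * (2 * sp)) * π / sp))).and
      (ht.eventually_ge_atTop (Kc * π))).and (ht.eventually_ge_atTop (3 * M1 * π / δ))).and
      (ht.eventually_ge_atTop (4 / sm))).exists
    obtain ⟨n, ⟨⟨⟨⟨h1, h2⟩, h3⟩, h4⟩, h5⟩, h6⟩ := this
    exact ⟨n, h1, h2, h3, h4, h5, h6⟩
  have hn0 : (0 : ℝ) < n := by exact_mod_cast hn1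
  set ε : ℝ := 1 / n with hε
  have hε0 : 0 < ε := by positivity
  have hε1 : ε ≤ 1 := by
    rw [hε, div_le_one hn0]
    exact_mod_cast hn1
  have htr : ∀ {C D : ℝ}, 0 < D → C / D ≤ n → ε * C ≤ D := by
    intro C D hD h
    rw [div_le_iff₀ hD] at h
    rw [hε, one_div_mul_eq_div, div_le_iff₀ hn0]
    linarith
  have ea : ε ^ 2 * (c + γ ^ 2) ≤ b / 2 := by
    have h1 := htr (by positivity) hna
    have h2 : ε ^ 2 * (c + γ ^ 2) ≤ ε * (c + γ ^ 2) := by
      apply mul_le_mul_of_nonneg_right _ (by positivity)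
      nlinarith
    linarith
  have eb : ε * ((M0 + Kc * (2 * sp)) * π) ≤ sp := htr hsp0 hnb
  have ec : ε * (Kc * π) ≤ 1 := by
    have := htr (C := Kc * π) (D := 1) one_pos (by rwa [div_one])
    exact this
  have ed : ε * (3 * M1 * π) ≤ δ := htr hδ0 hnd
  have ee : ε * 4 ≤ sm := htr hsm0 hne
  -- the field
  set σ := sm / 4 with hσ
  have hσ0 : 0 < σ := by positivity
  set y := yf κ γ ε with hy
  have hycont : Continuous y :=
    continuous_iff_continuousAt.mpr fun τ => (hasDerivAt_yf hγ hε0 τ).continuousAt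
  have hybd : ∀ τ ∈ Icc (-π) π, |y τ| ≤ 8 := fun τ hτ => yf_abs_le hκ hκ0 hγ hε0 ea hτ
  set F := Fl κ γ σ ε y with hF
  have hLip : ∀ t, LipschitzWith (Real.toNNReal (ε * Kc)) (F t) :=
    fun t => Fl_lipschitz hκ hγ hσ0 hε0.le y t
  have hFc : ∀ x, Continuous fun t => F t x := fun x => Fl_continuous hκ hγ hσ0 hycont x
  have hcoeK : ((Real.toNNReal (ε * Kc) : ℝ≥0) : ℝ) = ε * Kc := Real.coe_toNNReal _ (by positivity)
  have hcoeM : ((Real.toNNReal (ε * M0) : ℝ≥0) : ℝ) = ε * M0 := Real.coe_toNNReal _ (by positivity)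
  have hcoeM1 : ((Real.toNNReal (ε * M1) : ℝ≥0) : ℝ) = ε * M1 :=
    Real.coe_toNNReal _ (by positivity)
  have hcoeR : ((Real.toNNReal sp : ℝ≥0) : ℝ) = sp := Real.coe_toNNReal _ hsp0.le
  obtain ⟨α, hα, L', hL'⟩ := exists_flow F pi_pos.le pi_pos.le le_rfl (Real.toNNReal (ε * Kc))
    (Real.toNNReal (ε * M0)) (Real.toNNReal sp) hLip hFc
    (by
      intro t ht
      rw [hcoeM]
      have := Fl_bound hκ hγ hσ0 hε0.le (s := 0) (hybd t ht)
      rw [hbm, abs_zero, mul_zero, add_zero] at this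
      exact this)
    (by
      rw [hcoeK, hcoeM, hcoeR]
      calc (ε * M0 + ε * Kc * (2 * sp)) * π = ε * ((M0 + Kc * (2 * sp)) * π) := by ring
        _ ≤ sp := eb)
  rw [hcoeR] at hα hL'
  have hmem : ∀ s ∈ Icc sm sp, ((s, 0) : ℝ × ℝ) ∈ closedBall (0 : ℝ × ℝ) sp := by
    intro s hs
    rw [mem_closedBall, dist_zero_right, Prod.norm_def]
    simp only [norm_zero, Real.norm_eq_abs]
    rw [abs_of_pos (lt_of_lt_of_le hsm0 hs.1)]
    exact max_le hs.2 hsp0.le
  have hsubπ : Icc (0 : ℝ) π ⊆ Icc (-π) π := Icc_subset_Icc_left (by linarith [pi_pos])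
  -- closeness to the initial point
  have hclose : ∀ s ∈ Icc sm sp, ∀ τ ∈ Icc (0 : ℝ) π,
      |(α (s, 0) τ).1 - s| ≤ δ ∧ |(α (s, 0) τ).2| ≤ δ := by
    intro s hs τ hτ
    obtain ⟨hz0, hz⟩ := hα _ (hmem s hs)
    have h1 := dist_le_of_small (F := F) (T := π) (K := Real.toNNReal (ε * Kc))
      (M := Real.toNNReal (ε * M1)) (x := (s, 0)) (z := α (s, 0)) hLip
      (by
        intro t ht
        rw [hcoeM1]
        have h2 := Fl_bound hκ hγ hσ0 hε0.le (s := s) (hybd t (hsubπ ht))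
        rw [hbm] at h2
        refine h2.trans ?_
        apply mul_le_mul_of_nonneg_left _ hε0.le
        have hs0 : 0 < s := lt_of_lt_of_le hsm0 hs.1
        rw [← hc, abs_of_pos hc0, abs_of_pos hs0]
        have : c * s ≤ c * sp := mul_le_mul_of_nonneg_left hs.2 hc0.le
        linarith)
      (by rw [hcoeK]; linarith) hz0 (fun t ht => (hz t (hsubπ ht)).mono hsubπ) τ hτ
    rw [hcoeM1] at h1
    have h3 : ‖α (s, 0) τ - (s, 0)‖ ≤ δ := by
      refine h1.trans ?_
      calc 3 * (ε * M1) * π = ε * (3 * M1 * π) := by ring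
        _ ≤ δ := ed
    rw [Prod.norm_def] at h3
    have h4 := (le_max_left _ _).trans h3
    have h5 := (le_max_right _ _).trans h3
    simp only [Prod.fst_sub, Prod.snd_sub, sub_zero, Real.norm_eq_abs] at h4 h5
    exact ⟨h4, h5⟩
  -- derivative of the second component
  have hder2 : ∀ s ∈ Icc sm sp, ∀ τ ∈ Icc (-π) π, HasDerivWithinAt (fun t => (α (s, 0) t).2)
      (ε * F2 κ γ σ (α (s, 0) τ).1 (y τ + (α (s, 0) τ).2)) (Icc (-π) π) τ := by
    intro s hs τ hτ
    have h1 := (hα _ (hmem s hs)).2 τ hτ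
    have h2 := (hasFDerivAt_snd (𝕜 := ℝ) (p := α (s, 0) τ)).comp_hasDerivWithinAt τ h1
    exact h2
  -- continuity of the end value
  have hcontf : ContinuousOn (fun s : ℝ => (α (s, 0) π).2) (Icc sm sp) := by
    have h1 : ContinuousOn (fun x : ℝ × ℝ => α x π) (closedBall (0 : ℝ × ℝ) sp) :=
      (hL' π ⟨by linarith [pi_pos], le_rfl⟩).continuousOn
    have h2 : ContinuousOn (fun s : ℝ => α (s, 0) π) (Icc sm sp) :=
      h1.comp (by fun_prop) (fun s hs => hmem s hs)
    exact continuous_snd.comp_continuousOn h2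
  -- sign at the upper end
  have hneg : (α (sp, 0) π).2 < 0 := by
    have hs : sp ∈ Icc sm sp := ⟨hsmsp, le_rfl⟩
    obtain ⟨t, ht, h⟩ := mvt_within pi_pos hsubπ (hder2 sp hs)
    have hz0 : (α (sp, 0) 0).2 = 0 := by rw [(hα _ (hmem sp hs)).1]
    rw [hz0] at h
    obtain ⟨c1, c2⟩ := hclose sp hs t (Ioo_subset_Icc_self ht)
    rw [abs_le] at c1
    have hsge : sp / 2 ≤ (α (sp, 0) t).1 := by linarith
    have hlt : F2 κ γ σ (α (sp, 0) t).1 (y t + (α (sp, 0) t).2) < 0 := by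
      apply F2_neg hκ hκ0 hγ hσ0
      · linarith
      · have h1 := hybd t (hsubπ (Ioo_subset_Icc_self ht))
        have h2 := abs_add_le (y t) (α (sp, 0) t).2
        linarith
      · have h1 : sp ^ 2 / 4 ≤ (α (sp, 0) t).1 ^ 2 := by nlinarith
        have h2 : 324 / (b ^ 2 * c) < sp ^ 2 := by nlinarith
        rw [div_lt_iff₀ (by positivity)] at h2
        have h3 : b ^ 2 * (c * (sp ^ 2 / 4)) ≤ b ^ 2 * (c * (α (sp, 0) t).1 ^ 2) := by gcongr
        nlinarith
    have h1 : ε * F2 κ γ σ (α (sp, 0) t).1 (y t + (α (sp, 0) t).2) * (π - 0) < 0 := by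
      rw [sub_zero]
      exact mul_neg_of_neg_of_pos (mul_neg_of_pos_of_neg hε0 hlt) pi_pos
    linarith
  -- sign at the lower end
  have hpos : 0 < (α (sm, 0) π).2 := by
    have hs : sm ∈ Icc sm sp := ⟨le_rfl, hsmsp⟩
    have hz0 : (α (sm, 0) 0).2 = 0 := by rw [(hα _ (hmem sm hs)).1]
    have hlow : ∀ t ∈ Icc (0 : ℝ) π, -(3 / 2 * c * sm) ≤
        F2 κ γ σ (α (sm, 0) t).1 (y t + (α (sm, 0) t).2) := by
      intro t ht
      obtain ⟨c1, c2⟩ := hclose sm hs t ht
      rw [abs_le] at c1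
      have h1 := F2_ge (κ := κ) (γ := γ) (σ := σ) (s := (α (sm, 0) t).1)
        (Y := y t + (α (sm, 0) t).2) hκ0 hγ hσ0 (by linarith)
      have h2 : c * (α (sm, 0) t).1 ≤ c * (3 / 2 * sm) := by
        apply mul_le_mul_of_nonneg_left _ hc0.le
        linarith
      linarith
    have hmid : ∀ t ∈ Icc (π / 6) (5 * π / 6), h0 - 3 / 2 * c * sm ≤
        F2 κ γ σ (α (sm, 0) t).1 (y t + (α (sm, 0) t).2) := by
      intro t ht
      have ht' : t ∈ Icc (0 : ℝ) π := ⟨by linarith [ht.1, pi_pos], by linarith [ht.2, pi_pos]⟩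
      obtain ⟨c1, c2⟩ := hclose sm hs t ht'
      have hsin : 1 / 2 ≤ sin t := by
        rcases le_total t (π / 2) with h | h
        · rw [← sin_pi_div_six]
          apply sin_le_sin_of_le_of_le_pi_div_two _ h ht.1
          linarith [pi_pos]
        · rw [← sin_pi_div_six, ← sin_pi_sub t]
          apply sin_le_sin_of_le_of_le_pi_div_two _ _ _
          · linarith [pi_pos]
          · linarith
          · linarith [ht.2]
      have hyl := yf_lower hκ hκ0 hγ hε0 ea ht'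
      have hY : b / 8 ≤ |y t + (α (sm, 0) t).2| := by
        have h1 := abs_le.mp c2
        have h2 : b / 2 * (1 / 2) ≤ b / 2 * sin t := by gcongr
        have h3 : y t + (α (sm, 0) t).2 ≤ -(b / 8) := by linarith
        have h4 := neg_abs_le (y t + (α (sm, 0) t).2)
        linarith
      rw [abs_le] at c1
      have h5 : γ * (α (sm, 0) t).1 ≤ b / 8 := by
        have : γ * (α (sm, 0) t).1 ≤ γ * (3 / 2 * sm) := by
          apply mul_le_mul_of_nonneg_left _ hγ.le
          linarith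
        linarith
      have h1 := F2_mid hκ hκ0 hγ hσ0 (s := (α (sm, 0) t).1) (by linarith) hY h5
      have h2 : c * (α (sm, 0) t).1 ≤ c * (3 / 2 * sm) := by
        apply mul_le_mul_of_nonneg_left _ hc0.le
        linarith
      rw [← hc] at h1
      linarith
    have hπ := pi_pos
    obtain ⟨t1, ht1, e1⟩ := mvt_within (a := 0) (b := π / 6) (by positivity)
      (Icc_subset_Icc (by linarith) (by linarith)) (hder2 sm hs)
    obtain ⟨t2, ht2, e2⟩ := mvt_within (a := π / 6) (b := 5 * π / 6) (by linarith)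
      (Icc_subset_Icc (by linarith) (by linarith)) (hder2 sm hs)
    obtain ⟨t3, ht3, e3⟩ := mvt_within (a := 5 * π / 6) (b := π) (by linarith)
      (Icc_subset_Icc (by linarith) le_rfl) (hder2 sm hs)
    have l1 := hlow t1 ⟨ht1.1.le, by linarith [ht1.2]⟩
    have l2 := hmid t2 ⟨ht2.1.le, ht2.2.le⟩
    have l3 := hlow t3 ⟨by linarith [ht3.1], ht3.2.le⟩
    rw [hz0] at e1
    have m1 : ε * -(3 / 2 * c * sm) * (π / 6) ≤ ε *
        F2 κ γ σ (α (sm, 0) t1).1 (y t1 + (α (sm, 0) t1).2) * (π / 6 - 0) := by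
      rw [sub_zero]; gcongr
    have m2 : ε * (h0 - 3 / 2 * c * sm) * (2 * π / 3) ≤ ε *
        F2 κ γ σ (α (sm, 0) t2).1 (y t2 + (α (sm, 0) t2).2) * (5 * π / 6 - π / 6) := by
      have : 5 * π / 6 - π / 6 = 2 * π / 3 := by ring
      rw [this]; gcongr
    have m3 : ε * -(3 / 2 * c * sm) * (π / 6) ≤ ε *
        F2 κ γ σ (α (sm, 0) t3).1 (y t3 + (α (sm, 0) t3).2) * (π - 5 * π / 6) := by
      have : π - 5 * π / 6 = π / 6 := by ring
      rw [this]; gcongr
    have hεh : 0 < ε * h0 * π := by positivity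
    have hfin : ε * (3 / 2 * c * sm) * π ≤ 3 / 8 * (ε * h0 * π) := by
      have : ε * (4 * c * sm) * π ≤ ε * h0 * π := by gcongr
      linarith
    have hsum : (α (sm, 0) π).2 ≥ ε * -(3 / 2 * c * sm) * (π / 6) +
        ε * (h0 - 3 / 2 * c * sm) * (2 * π / 3) + ε * -(3 / 2 * c * sm) * (π / 6) := by
      linarith
    have heq : ε * -(3 / 2 * c * sm) * (π / 6) +
        ε * (h0 - 3 / 2 * c * sm) * (2 * π / 3) + ε * -(3 / 2 * c * sm) * (π / 6) =
        2 / 3 * (ε * h0 * π) - ε * (3 / 2 * c * sm) * π := by ring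
    linarith
  -- the zero
  obtain ⟨s, hs, hzero⟩ : ∃ s ∈ Icc sm sp, (α (s, 0) π).2 = 0 := by
    have := intermediate_value_Icc' hsmsp hcontf
    exact this ⟨hneg.le, hpos.le⟩
  obtain ⟨hz0, hz⟩ := hα _ (hmem s hs)
  set z := α (s, 0) with hzdef
  -- symmetry
  have hsym : EqOn z (fun t => ((z (-t)).1, -(z (-t)).2)) (Icc (-π) π) := by
    have hcz : ContinuousOn z (Icc (-π) π) := fun t ht => (hz t ht).continuousWithinAt
    have hmap : MapsTo (fun t : ℝ => -t) (Icc (-π) π) (Icc (-π) π) := fun t ht =>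
      ⟨by linarith [ht.2], by linarith [ht.1]⟩
    have hcz' : ContinuousOn (fun t => z (-t)) (Icc (-π) π) :=
      hcz.comp continuous_neg.continuousOn hmap
    apply ODE_solution_unique_of_mem_Icc (v := F) (s := fun _ => univ) (t₀ := 0)
      (K := Real.toNNReal (ε * Kc))
    · exact fun t _ => (hLip t).lipschitzOnWith
    · exact ⟨by linarith [pi_pos], pi_pos⟩
    · exact hcz
    · exact fun t ht => (hz t (Ioo_subset_Icc_self ht)).hasDerivAt (Icc_mem_nhds ht.1 ht.2)
    · exact fun _ _ => mem_univ _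
    · exact (continuous_fst.comp_continuousOn hcz').prodMk
        (continuous_snd.comp_continuousOn hcz').neg
    · intro t ht
      have ht' : -t ∈ Ioo (-π) π := ⟨by linarith [ht.2], by linarith [ht.1]⟩
      have h1 : HasDerivAt z (F (-t) (z (-t))) (-t) :=
        (hz (-t) (Ioo_subset_Icc_self ht')).hasDerivAt (Icc_mem_nhds ht'.1 ht'.2)
      have h2 : HasDerivAt (fun t => z (-t)) ((-1 : ℝ) • F (-t) (z (-t))) t :=
        HasDerivAt.scomp t h1 (hasDerivAt_neg t)
      have h3' := (hasFDerivAt_fst (𝕜 := ℝ) (p := z (-t))).comp_hasDerivAt t h2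
      have h3 : HasDerivAt (fun t => (z (-t)).1) ((-1 : ℝ) • F (-t) (z (-t))).1 t := h3'
      have h4' := (hasFDerivAt_snd (𝕜 := ℝ) (p := z (-t))).comp_hasDerivAt t h2
      have h4 : HasDerivAt (fun t => (z (-t)).2) ((-1 : ℝ) • F (-t) (z (-t))).2 t := h4'
      have h5 := h3.prodMk h4.fun_neg
      refine h5.congr_deriv ?_
      have hyneg : y (-t) = -y t := yf_neg hγ hε0 t
      have e1 : y t + -(z (-t)).2 = -(y (-t) + (z (-t)).2) := by rw [hyneg]; ring
      simp only [hF, Fl, Prod.smul_fst, Prod.smul_snd, smul_eq_mul]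
      rw [e1, F1_neg hκ, F2_neg' hκ]
      ext
      · simp
      · simp
    · exact fun _ _ => mem_univ _
    · simp only [neg_zero, hz0]
  have hends : z (-π) = z (-π + 2 * π) := by
    have e1 : -π + 2 * π = π := by ring
    rw [e1]
    have h1 := hsym (⟨by linarith [pi_pos], le_rfl⟩ : π ∈ Icc (-π) π)
    simp only at h1
    have h2 : (z π).1 = (z (-π)).1 := by rw [h1]
    have h3 : (z π).2 = -(z (-π)).2 := by rw [h1]
    rw [hzero] at h3
    apply Prod.ext
    · exact h2.symm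
    · rw [hzero]; linarith
  have hIcc : Icc (-π) (-π + 2 * π) = Icc (-π) π := by
    congr 1; ring
  obtain ⟨w, hwper, hweq, hwder⟩ := periodic_extension (L := 2 * π) (a := -π) (by positivity)
    (G := F) (fun t x => by
      simp only [hF, Fl]
      rw [hy, yf_add_two_pi hγ hε0]) hends (by rw [hIcc]; exact hz)
  refine ⟨n, σ, w, by exact_mod_cast hn1, hσ0, hwper, hwder, ?_⟩
  have hbound : ∀ t ∈ Icc (-π) π, sm / 2 ≤ (z t).1 := by
    intro t ht
    rcases le_total 0 t with h | h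
    · have := (hclose s hs t ⟨h, ht.2⟩).1
      rw [abs_le] at this
      linarith [hs.1]
    · have h1 := hsym ht
      simp only at h1
      have h2 : (z t).1 = (z (-t)).1 := by rw [h1]
      rw [h2]
      have := (hclose s hs (-t) ⟨by linarith, by linarith [ht.1]⟩).1
      rw [abs_le] at this
      linarith [hs.1]
  intro τ
  obtain ⟨t, ht, hwt⟩ := hwper.exists_mem_Ico (by positivity : (0 : ℝ) < 2 * π) τ (-π)
  have ht' : t ∈ Icc (-π) (-π + 2 * π) := Ico_subset_Icc_self ht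
  rw [hwt, hweq t ht']
  rw [hIcc] at ht'
  have := hbound t ht'
  constructor
  · linarith
  · change ε < _
    linarith

end Pool.Agent.Helper37.PL
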