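import Mathlib
import Pool.Agent.Helper37.PL.LowC
import Pool.Agent.Helper37.PL.Assemble

/-!
# Non-uniqueness for `1 < p < 2`
-/

namespace Pool.Agent.Helper37.PL

open Real Set Filter Topology Metric

/-- the inverse function `pf` is differentiable -/
lemma pf_differentiable {κ γ : ℝ} (hκ : -1 < κ) (hγ : 0 < γ) {s Y : ℝ → ℝ} {s' Y' θ : ℝ}
    (hs : HasDerivAt s s' θ) (hY : HasDerivAt Y Y' θ) (hpos : 0 < s θ) :
    DifferentiableAt ℝ (fun θ => pf κ γ (s θ) (Y θ)) θ := by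
  unfold pf
  have h1 : DifferentiableAt ℝ (fun θ => Y θ / (γ * s θ)) θ :=
    (hY.fun_div (hs.const_mul γ) (by positivity)).differentiableAt
  have h2 : DifferentiableAt ℝ (B κ) (Y θ / (γ * s θ)) := (hasDerivAt_B hκ _).differentiableAt
  exact ((hs.const_mul γ).differentiableAt).mul (h2.comp θ h1)

theorem nonuniqueness_low {p : ℝ} (hp1 : 1 < p) (hp2 : p < 2) :
    ∃ (Ω : Set (E 2)) (f g u v : E 2 → ℝ), IsOpen Ω ∧ IsConnected Ω ∧ Bornology.IsBounded Ω ∧
      Continuous f ∧ Continuous g ∧ IsSolution p Ω f g u ∧ IsSolution p Ω f g v ∧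
      ∃ x ∈ Ω, u x ≠ v x := by
  set κ := p - 2 with hκdef
  have hκ : -1 < κ := by linarith
  have hκ0 : κ < 0 := by linarith
  set γ : ℝ := 3 with hγdef
  have hγ : 0 < γ := by norm_num
  obtain ⟨n, σ, z, hn, hσ, hper, hder, hlow⟩ := low_solution hκ hκ0 hγ
  have hn0 : (0 : ℝ) < n := by exact_mod_cast hn
  set ε : ℝ := 1 / n with hε
  have hε0 : 0 < ε := by positivity
  have hnε : (n : ℝ) * ε = 1 := by rw [hε]; field_simp
  set y := yf κ γ ε with hy
  -- the first profile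
  have hlin : ∀ θ : ℝ, HasDerivAt (fun θ : ℝ => (n : ℝ) * θ) n θ := fun θ => by
    simpa using (hasDerivAt_id' θ).const_mul (n : ℝ)
  have hs : ∀ θ, HasDerivAt (fun θ => ε * cos (n * θ)) (-sin (n * θ)) θ := by
    intro θ
    have h1 := ((hlin θ).cos).const_mul ε
    refine h1.congr_deriv ?_
    linear_combination (-sin (n * θ)) * hnε
  have hs1 : ∀ θ, HasDerivAt (fun θ => -sin (n * θ)) (-(cos (n * θ) / ε)) θ := by
    intro θ
    have h1 := ((hlin θ).sin).fun_neg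
    refine h1.congr_deriv ?_
    have : (n : ℝ) = 1 / ε := by rw [hε]; field_simp
    rw [this]
    ring
  have hA : ∀ θ, Nop κ γ (ε * cos (n * θ)) (-sin (n * θ)) (-(cos (n * θ) / ε)) =
      n * Af κ γ ε (n * θ) := by
    intro θ
    rw [← Nop_cos hγ hε0, ← mul_assoc, hnε, one_mul]
  -- the second profile
  have hmax : ∀ τ, max (z τ).1 σ = (z τ).1 := fun τ => max_eq_left (hlow τ).1.le
  have hpos : ∀ τ, 0 < (z τ).1 := fun τ => hσ.trans (hlow τ).1
  have hz1 : ∀ τ, HasDerivAt (fun τ => (z τ).1) (ε * pf κ γ (z τ).1 (y τ + (z τ).2)) τ := by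
    intro τ
    have h1 := (hasFDerivAt_fst (𝕜 := ℝ) (p := z τ)).comp_hasDerivAt τ (hder τ)
    have h2 : HasDerivAt (fun τ => (z τ).1) (ε * F1 κ γ σ (z τ).1 (y τ + (z τ).2)) τ := h1
    unfold F1 at h2
    rwa [hmax] at h2
  have hz2 : ∀ τ, HasDerivAt (fun τ => (z τ).2)
      (ε * (-(κ * γ * H γ (z τ).1 (pf κ γ (z τ).1 (y τ + (z τ).2))) - c0 κ γ * (z τ).1)) τ := by
    intro τ
    have h1 := (hasFDerivAt_snd (𝕜 := ℝ) (p := z τ)).comp_hasDerivAt τ (hder τ)
    have h2 : HasDerivAt (fun τ => (z τ).2) (ε * F2 κ γ σ (z τ).1 (y τ + (z τ).2)) τ := h1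
    unfold F2 F1 at h2
    rwa [hmax] at h2
  set t : ℝ → ℝ := fun θ => (z (n * θ)).1 with htdef
  set Y : ℝ → ℝ := fun θ => y (n * θ) + (z (n * θ)).2 with hYdef
  set t1 : ℝ → ℝ := fun θ => pf κ γ (t θ) (Y θ) with ht1def
  have ht : ∀ θ, HasDerivAt t (t1 θ) θ := by
    intro θ
    have h1 : HasDerivAt t (ε * pf κ γ (z (n * θ)).1 (y (n * θ) + (z (n * θ)).2) * n) θ :=
      (hz1 (n * θ)).comp θ (hlin θ)
    refine h1.congr_deriv ?_
    simp only [ht1def, htdef, hYdef]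
    linear_combination (pf κ γ (z (n * θ)).1 (y (n * θ) + (z (n * θ)).2)) * hnε
  have hYd : ∀ θ, HasDerivAt Y (n * Af κ γ ε (n * θ) +
      (-(κ * γ * H γ (t θ) (t1 θ)) - c0 κ γ * t θ)) θ := by
    intro θ
    have h1 : HasDerivAt (fun θ => y (n * θ)) (Af κ γ ε (n * θ) * n) θ :=
      (hasDerivAt_yf hγ hε0 (n * θ)).comp θ (hlin θ)
    have h2 : HasDerivAt (fun θ => (z (n * θ)).2)
        (ε * (-(κ * γ * H γ (t θ) (t1 θ)) - c0 κ γ * t θ) * n) θ :=
      (hz2 (n * θ)).comp θ (hlin θ)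
    refine (h1.fun_add h2).congr_deriv ?_
    linear_combination (-(κ * γ * H γ (t θ) (t1 θ)) - c0 κ γ * t θ) * hnε
  have htpos : ∀ θ, 0 < t θ := fun θ => hpos _
  have ht1 : ∀ θ, HasDerivAt t1 (deriv t1 θ) θ := fun θ =>
    (pf_differentiable hκ hγ (ht θ) (hYd θ) (htpos θ)).hasDerivAt
  have hGam : (fun θ => Gam κ γ (t θ) (t1 θ)) = Y := by
    funext θ
    exact Gam_pf hκ hγ (htpos θ) (Y θ)
  have hNt : ∀ θ, Nop κ γ (t θ) (t1 θ) (deriv t1 θ) = n * Af κ γ ε (n * θ) := by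
    intro θ
    have h1 := hasDerivAt_Gam (κ := κ) hγ (ht θ) (ht1 θ) (htpos θ)
    rw [hGam] at h1
    have h2 := h1.unique (hYd θ)
    linarith
  have hnper : ∀ θ : ℝ, (n : ℝ) * (θ + 2 * π) = n * θ + n * (2 * π) := fun θ => by ring
  have htper : Function.Periodic t (2 * π) := by
    intro θ
    simp only [htdef]
    rw [hnper, hper.nat_mul n]
  have hsper : Function.Periodic (fun θ => ε * cos (n * θ)) (2 * π) := by
    intro θ
    simp only
    rw [hnper, Real.cos_periodic.nat_mul n]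
  have haper : Function.Periodic (fun θ => n * Af κ γ ε (n * θ)) (2 * π) := by
    intro θ
    simp only
    have h1 : Function.Periodic (Af κ γ ε) (2 * π) := fun τ => Af_add_two_pi τ
    rw [hnper, h1.nat_mul n]
  have hacont : Continuous (fun θ => n * Af κ γ ε (n * θ)) :=
    continuous_const.mul ((Af_continuous hγ hε0).comp (by fun_prop))
  refine assemble (p := p) (γ := γ) hp1 (by norm_num) hs hs1 ht ht1 ?_ ?_ hsper htper ?_
    hacont haper hA hNt
  · intro θ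
    have := den_pos hγ hε0 (n * θ)
    rw [neg_sq]
    exact this.ne'
  · intro θ
    have := htpos θ
    positivity
  · intro θ
    have h1 : ε * cos (n * θ) ≤ ε * 1 := mul_le_mul_of_nonneg_left (cos_le_one _) hε0.le
    have h2 := (hlow (n * θ)).2
    calc ε * cos (n * θ) ≤ ε * 1 := h1
      _ = ε := mul_one _
      _ < t θ := h2

end Pool.Agent.Helper37.PL
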